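import Pool.Agent.W5h45.EK.B3
import Pool.Agent.R344.SP.Q
import Pool.Agent.W5h47.BD.D

set_option autoImplicit false
set_option linter.unusedSectionVars false

/-!
Erdős–Kac laws along almost all trajectories of the `3x+1` function.
-/

namespace Pool.Agent.W5h45.EK

open Finset Filter Topology
open Pool.Agent.H499R2.ND (Dn cnt_eq Tn Bas zd_iff zd_mono)
open Pool.Agent.W5h47.BD (zd_of zd_union zd_small log_le_time)
open Pool.Agent.H499R2.CO (Tz)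

/-- From `κ log n` terms to complete trajectories. -/
theorem complete {α : Type} {F : α → ℕ → ℕ → ℝ} (h0 : ∀ a n, F a n 0 = 0)
    (hF : ∀ a n s s', s' ≤ s → |F a n s - F a n s'| ≤ (s : ℝ) - s')
    (h : ∀ κ ε : ℝ, κ < 2 / Real.log (4 / 3) → 0 < ε →
      Dn (fun n => ∃ t : ℕ, (t : ℝ) ≤ κ * Real.log n ∧ ∃ a, ε * Real.log n < |F a n t|) 0)
    {ε : ℝ} (hε : 0 < ε) :
    Dn (fun n => ∃ t : ℕ, (T^[t] n = 1 ∧ ∀ j < t, T^[j] n ≠ 1) ∧ ∃ s ≤ t, ∃ a, ε * t < |F a n s|) 0 := by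
  obtain ⟨δ, _, _, _, hδ⟩ := Pool.Agent.H499R2.ND.Bas_density
  set v : ℝ := 2 / Real.log (4 / 3) with hv
  set η : ℝ := ε / 16 with hη
  have hη0 : 0 < η := by positivity
  have h1 := h (v - η) (ε / 4) (by linarith) (by positivity)
  have h2 := Pool.Agent.H499R2.ND.bas_zd hδ (fun n _ ⟨t, ht, _⟩ => ⟨t, ht⟩)
    (Pool.Agent.H499R2.ND.bas_profile hδ (ε := η) hη0)
  have h3 := zd_small (max 1 (16 / ε))
  refine zd_mono (zd_union (zd_union h1 h2) h3) ?_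
  rintro n hn ⟨t, ⟨ht, htm⟩, s, hs, a, g6⟩
  by_contra hcon
  rw [not_or, not_or] at hcon
  obtain ⟨⟨hc1, hc2⟩, hc3⟩ := hcon
  push Not at hc3
  have hl1 : 1 < Real.log n := (le_max_left _ _).trans_lt hc3
  have hl2 : 16 / ε < Real.log n := (le_max_right _ _).trans_lt hc3
  have hl3 : 16 < ε * Real.log n := by
    rw [div_lt_iff₀ hε] at hl2
    linarith
  have htl := log_le_time hn ht
  -- the stopping time
  have htime : (t : ℝ) ≤ (v + η) * Real.log n := by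
    have hB : Bas n := ⟨t, ht⟩
    have h4 : ∃ t : ℕ, Tn^[t] n = 1 ∧ (∀ j < t, Tn^[j] n ≠ 1) ∧
        |(t : ℝ) - 2 / Real.log (4 / 3) * Real.log n| ≤ η * Real.log n ∧
        ∀ j ≤ t, |Real.log ((Tn^[j] n : ℕ) : ℝ) - (Real.log n - j / 2 * Real.log (4 / 3))|
          ≤ η * Real.log n := by
      by_contra h5
      exact hc2 ⟨hB, h5⟩
    obtain ⟨t', ht', htm', h5, _⟩ := h4
    have e1 : t' = t := by
      rcases lt_trichotomy t' t with h6 | h6 | h6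
      · exact absurd ht' (htm t' h6)
      · exact h6
      · exact absurd ht (htm' t h6)
    subst e1
    have := (abs_le.1 h5).2
    linarith
  have key : ∀ s' : ℕ, (s' : ℝ) ≤ (v - η) * Real.log n → |F a n s'| ≤ ε / 4 * Real.log n := by
    intro s' hs'
    by_contra h4
    push Not at h4
    exact hc1 ⟨s', hs', a, h4⟩
  set s' : ℕ := min s ⌊(v - η) * Real.log n⌋₊ with hs'
  have hsr : (s : ℝ) ≤ t := by exact_mod_cast hs
  rcases le_or_gt 0 (v - η) with hvη | hvη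
  · have hnn : 0 ≤ (v - η) * Real.log n := mul_nonneg hvη (by linarith)
    have k1 : (s' : ℝ) ≤ (v - η) * Real.log n := by
      have : (s' : ℝ) ≤ (⌊(v - η) * Real.log n⌋₊ : ℝ) := by exact_mod_cast min_le_right _ _
      exact this.trans (Nat.floor_le hnn)
    have k2 : s' ≤ s := min_le_left _ _
    have k3 : (s : ℝ) - s' ≤ 2 * η * Real.log n + 1 := by
      rcases le_total s ⌊(v - η) * Real.log n⌋₊ with h5 | h5
      · have e1 : s' = s := min_eq_left h5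
        rw [e1]
        have : 0 ≤ 2 * η * Real.log n := by positivity
        linarith
      · have e1 : s' = ⌊(v - η) * Real.log n⌋₊ := min_eq_right h5
        rw [e1]
        have := Nat.lt_floor_add_one ((v - η) * Real.log n)
        linarith
    have k4 := key s' k1
    have k5 := hF a n s s' k2
    have k7 : |F a n s| ≤ ε / 4 * Real.log n + (2 * η * Real.log n + 1) := by
      calc |F a n s| = |F a n s' + (F a n s - F a n s')| := by ring_nf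
        _ ≤ |F a n s'| + |F a n s - F a n s'| := abs_add_le _ _
        _ ≤ _ := by linarith
    have k8 : ε / 4 * Real.log n + (2 * η * Real.log n + 1) ≤ ε * Real.log n := by
      rw [hη]
      linarith
    have k9 : ε * Real.log n ≤ ε * t := by gcongr
    linarith
  · -- then `ε` is large and the claim is trivial
    have hv1 : 1 < v := Pool.Agent.W5h47.BD.log43_lt
    have hε16 : 16 < ε := by
      rw [hη] at hvη
      linarith
    have c5 : |F a n s| ≤ s := by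
      have := hF a n s 0 (Nat.zero_le _)
      rw [h0, sub_zero, Nat.cast_zero, sub_zero] at this
      exact this
    have c6 : (t : ℝ) ≤ ε * t := by
      have : (0 : ℝ) ≤ t := Nat.cast_nonneg _
      nlinarith
    linarith

/-- the deviation of the windows -/
noncomputable def Fw (R r : ℕ) (J : Finset ℕ) (y : ℕ → ℝ) (w : ℕ → ℝ) (n t : ℕ) : ℝ :=
  ∑ k ∈ range t, w k * (gn R r J y (T^[k] n) - (∏ j ∈ J, Phi (y j)) / 2 ^ R)

theorem rho_bd (R : ℕ) (J : Finset ℕ) (y : ℕ → ℝ) :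
    0 ≤ (∏ j ∈ J, Phi (y j)) / 2 ^ R ∧ (∏ j ∈ J, Phi (y j)) / 2 ^ R ≤ 1 := by
  have h1 : 0 ≤ ∏ j ∈ J, Phi (y j) := prod_nonneg fun j _ => Phi_nonneg _
  have h2 : ∏ j ∈ J, Phi (y j) ≤ 1 := prod_le_one (fun j _ => Phi_nonneg _) fun j _ => Phi_le_one _
  refine ⟨by positivity, ?_⟩
  rw [div_le_one (by positivity)]
  exact h2.trans (one_le_pow₀ (by norm_num))

theorem part1 {R r : ℕ} (hr : 1 ≤ r) (hr2 : r ≤ 2 ^ R) {J : Finset ℕ} (hJ : Sep R r J) (y : ℕ → ℝ)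
    {κ ε : ℝ} (hκ : κ < 2 / Real.log (4 / 3)) (hε : 0 < ε) :
    ∃ N₀ : ℕ, ∀ N ≥ N₀, ∀ w : ℕ → ℝ, (∀ k, |w k| ≤ 1) →
      (Set.ncard {n : ℕ | 1 ≤ n ∧ n ≤ N ∧ ∃ t : ℕ, (t : ℝ) ≤ κ * Real.log n ∧
        ε * Real.log n < |Fw R r J y w n t|} : ℝ) ≤ ε * N := by
  obtain ⟨κ', hκ0, hκκ, hκ1⟩ := Pool.Agent.R344.SP.kappa_bridge hκ
  have hρ := rho_bd R J y
  obtain ⟨N₀, hN₀⟩ := Pool.Agent.R344.SP.mean (d := 1) (by norm_num) isCoprime_one_left hκ0 hκ1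
    (g := gz R r J y) (fun x => by
      unfold gz
      rcases gn_01 R r J y x.toNat with h | h <;> rw [h] <;> norm_num)
    (ρ := (∏ j ∈ J, Phi (y j)) / 2 ^ R) (by rw [abs_of_nonneg hρ.1]; exact hρ.2)
    (gz_locMean hr hr2 hJ y) (ε := ε / 2) (by positivity)
  obtain ⟨N₁, hN₁⟩ := Pool.Agent.R344.SP.finish (α := {w : ℕ → ℝ // ∀ k, |w k| ≤ 1}) hκκ
    (fun w n t => |Fw R r J y w.1 n t|) hε (by
    refine ⟨N₀, fun N hN w S hS => ?_⟩
    refine hN₀ N hN w.1 w.2 S ?_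
    intro n hn
    obtain ⟨h1, h2, t, ht, hbig⟩ := hS n hn
    refine ⟨h1, h2, t, ht, hbig.trans_eq ?_⟩
    congr 1
    unfold Fw
    apply Finset.sum_congr rfl
    intro k _
    rw [Pool.Agent.R344.SP.iter_cast (T := T) (fun _ => rfl) k n]
    unfold gz
    rw [Int.toNat_natCast])
  exact ⟨N₁, fun N hN w hw => hN₁ N hN ⟨w, hw⟩⟩

theorem part1' {R r : ℕ} (hr : 1 ≤ r) (hr2 : r ≤ 2 ^ R) {J : Finset ℕ} (hJ : Sep R r J) (y : ℕ → ℝ)
    {w : ℕ → ℝ} (hw : ∀ k, |w k| ≤ 1) (κ ε : ℝ) (hκ : κ < 2 / Real.log (4 / 3)) (hε : 0 < ε) :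
    Dn (fun n => ∃ t : ℕ, (t : ℝ) ≤ κ * Real.log n ∧ ε * Real.log n < |Fw R r J y w n t|) 0 := by
  apply zd_of
  intro ε' hε'
  obtain ⟨N₀, hN₀⟩ := part1 hr hr2 hJ y hκ (lt_min hε hε')
  refine ⟨N₀, fun N hN => ?_⟩
  refine le_trans ?_ ((hN₀ N hN w hw).trans (mul_le_mul_of_nonneg_right (min_le_right _ _)
    (Nat.cast_nonneg _)))
  have hfin : {n : ℕ | 1 ≤ n ∧ n ≤ N ∧ ∃ t : ℕ, (t : ℝ) ≤ κ * Real.log n ∧
        min ε ε' * Real.log n < |Fw R r J y w n t|}.Finite :=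
    (Set.finite_Icc 1 N).subset fun _ hn => ⟨hn.1, hn.2.1⟩
  have : Set.ncard {n : ℕ | 1 ≤ n ∧ n ≤ N ∧ ∃ t : ℕ, (t : ℝ) ≤ κ * Real.log n ∧
        ε * Real.log n < |Fw R r J y w n t|} ≤
      Set.ncard {n : ℕ | 1 ≤ n ∧ n ≤ N ∧ ∃ t : ℕ, (t : ℝ) ≤ κ * Real.log n ∧
        min ε ε' * Real.log n < |Fw R r J y w n t|} := by
    apply Set.ncard_le_ncard _ hfin
    rintro n ⟨h1, h2, t, ht, g6⟩
    refine ⟨h1, h2, t, ht, lt_of_le_of_lt ?_ g6⟩
    have hn1 : (1 : ℝ) ≤ n := by exact_mod_cast h1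
    exact mul_le_mul_of_nonneg_right (min_le_left _ _) (Real.log_nonneg hn1)
  exact_mod_cast this

theorem Fw_step {R r : ℕ} {J : Finset ℕ} (y : ℕ → ℝ) {w : ℕ → ℝ} (hw : ∀ k, |w k| ≤ 1) (n : ℕ) {s s' : ℕ} (h : s' ≤ s) :
    |Fw R r J y w n s - Fw R r J y w n s'| ≤ (s : ℝ) - s' := by
  have hρ := rho_bd R J y
  unfold Fw
  rw [← sum_Ico_eq_sub _ h]
  refine (abs_sum_le_sum_abs _ _).trans ?_
  calc ∑ k ∈ Ico s' s, |w k * (gn R r J y (T^[k] n) - (∏ j ∈ J, Phi (y j)) / 2 ^ R)| ≤ ∑ _k ∈ Ico s' s, (1 : ℝ) := by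
        apply sum_le_sum
        intro k _
        rw [abs_mul]
        have h1 : |gn R r J y (T^[k] n) - (∏ j ∈ J, Phi (y j)) / 2 ^ R| ≤ 1 := by
          rw [abs_le]
          rcases gn_01 R r J y (T^[k] n) with g | g <;> rw [g] <;> constructor <;> linarith [hρ.1, hρ.2]
        calc _ ≤ 1 * 1 := mul_le_mul (hw k) h1 (abs_nonneg _) zero_le_one
          _ = 1 := one_mul 1
    _ = (s : ℝ) - s' := by
        rw [sum_const, Nat.card_Ico, nsmul_eq_mul, mul_one, Nat.cast_sub h]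

theorem part2 {R r : ℕ} (hr : 1 ≤ r) (hr2 : r ≤ 2 ^ R) {J : Finset ℕ} (hJ : Sep R r J) (y : ℕ → ℝ)
    {w : ℕ → ℝ} (hw : ∀ k, |w k| ≤ 1) {ε : ℝ} (hε : 0 < ε) :
    Dn (fun n => ∃ t : ℕ, (T^[t] n = 1 ∧ ∀ j < t, T^[j] n ≠ 1) ∧ ∃ s ≤ t, ε * t < |Fw R r J y w n s|) 0 := by
  have h := complete (α := Unit) (F := fun _ n t => Fw R r J y w n t) (fun _ n => by simp [Fw])
    (fun _ n s s' h => Fw_step y hw n h)
    (fun κ ε hκ hε => by
      refine zd_mono (part1' hr hr2 hJ y hw κ ε hκ hε) ?_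
      rintro n _ ⟨t, ht, _, h⟩
      exact ⟨t, ht, h⟩) hε
  refine zd_mono h ?_
  rintro n _ ⟨t, ht, s, hs, g⟩
  exact ⟨t, ht, s, hs, (), g⟩

end Pool.Agent.W5h45.EK
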