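import Mathlib

set_option autoImplicit false

/-!
Mean values of products of functions which are periodic modulo primes.
-/

namespace Pool.Agent.W5h45.EK

open Finset

/-- the Chinese remainder theorem for sums -/
theorem crt_sum {a b : ℕ} (ha : 0 < a) (hb : 0 < b) (hab : Nat.Coprime a b) (f g : ℕ → ℂ)
    (hf : ∀ n, f (n % a) = f n) (hg : ∀ n, g (n % b) = g n) :
    ∑ n ∈ range (a * b), f n * g n = (∑ n ∈ range a, f n) * ∑ n ∈ range b, g n := by
  rw [sum_mul_sum, ← sum_product']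
  refine sum_nbij' (fun n => (n % a, n % b)) (fun z => (Nat.chineseRemainder hab z.1 z.2 : ℕ)) ?_ ?_ ?_ ?_ ?_
  · intro n _
    rw [mem_product, mem_range, mem_range]
    exact ⟨Nat.mod_lt _ ha, Nat.mod_lt _ hb⟩
  · intro z hz
    rw [mem_range]
    exact Nat.chineseRemainder_lt_mul hab z.1 z.2 ha.ne' hb.ne'
  · intro n hn
    rw [mem_range] at hn
    have h1 := (Nat.chineseRemainder hab (n % a) (n % b)).2
    have h2 : (Nat.chineseRemainder hab (n % a) (n % b) : ℕ) ≡ n [MOD a * b] := by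
      rw [← Nat.modEq_and_modEq_iff_modEq_mul hab]
      exact ⟨h1.1.trans (Nat.mod_modEq _ _), h1.2.trans (Nat.mod_modEq _ _)⟩
    have h3 := Nat.chineseRemainder_lt_mul hab (n % a) (n % b) ha.ne' hb.ne'
    exact Nat.ModEq.eq_of_lt_of_lt h2 h3 hn
  · rintro ⟨u, v⟩ hz
    rw [mem_product, mem_range, mem_range] at hz
    have h1 := (Nat.chineseRemainder hab u v).2
    have h2 : (Nat.chineseRemainder hab u v : ℕ) % a = u := by
      have := h1.1
      unfold Nat.ModEq at this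
      rw [this, Nat.mod_eq_of_lt hz.1]
    have h3 : (Nat.chineseRemainder hab u v : ℕ) % b = v := by
      have := h1.2
      unfold Nat.ModEq at this
      rw [this, Nat.mod_eq_of_lt hz.2]
    exact Prod.ext h2 h3
  · intro n _
    simp only [hf, hg]

theorem crt_prod (D : Finset ℕ) (hD : ∀ p ∈ D, p.Prime) (X : ℕ → ℕ → ℂ)
    (hX : ∀ p ∈ D, ∀ n, X p (n % p) = X p n) :
    (∀ n, ∏ p ∈ D, X p (n % ∏ p ∈ D, p) = ∏ p ∈ D, X p n) ∧
    ∑ n ∈ range (∏ p ∈ D, p), ∏ p ∈ D, X p n = ∏ p ∈ D, ∑ n ∈ range p, X p n := by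
  have hper : ∀ E ⊆ D, ∀ n, ∏ p ∈ E, X p (n % ∏ p ∈ E, p) = ∏ p ∈ E, X p n := by
    intro E hE n
    refine prod_congr rfl fun p hp => ?_
    rw [← hX p (hE hp) (n % ∏ p ∈ E, p), ← hX p (hE hp) n]
    congr 1
    exact Nat.mod_mod_of_dvd _ (dvd_prod_of_mem _ hp)
  refine ⟨hper D subset_rfl, ?_⟩
  have key : ∀ E ⊆ D, ∑ n ∈ range (∏ p ∈ E, p), ∏ p ∈ E, X p n = ∏ p ∈ E, ∑ n ∈ range p, X p n := by
    intro E
    induction E using Finset.induction_on with
    | empty => intro _; simp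
    | insert p E hp ih =>
      intro hE
      have hpD : p ∈ D := hE (mem_insert_self _ _)
      have hED : E ⊆ D := (subset_insert _ _).trans hE
      have hcop : Nat.Coprime p (∏ q ∈ E, q) := by
        apply Nat.Coprime.prod_right
        intro q hq
        rw [Nat.coprime_primes (hD p hpD) (hD q (hED hq))]
        rintro rfl
        exact hp hq
      rw [prod_insert hp, prod_insert hp, ← ih hED]
      rw [← crt_sum (hD p hpD).pos (prod_pos fun q hq => (hD q (hED hq)).pos) hcop (X p)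
        (fun n => ∏ q ∈ E, X q n) (hX p hpD) (hper E hED)]
      refine sum_congr rfl fun n _ => ?_
      rw [prod_insert hp]
  exact key D subset_rfl

/-- mean values of periodic functions -/
theorem per_mean {Q : ℕ} (hQ : 0 < Q) (F : ℕ → ℂ) (hF : ∀ n, F (n % Q) = F n) (hB : ∀ n, ‖F n‖ ≤ 1)
    (N : ℕ) : ‖∑ n ∈ range N, F n - (N : ℂ) / Q * ∑ n ∈ range Q, F n‖ ≤ 2 * Q := by
  have hQ' : (Q : ℂ) ≠ 0 := by exact_mod_cast hQ.ne'
  have hQr : (0 : ℝ) < Q := by exact_mod_cast hQ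
  have hblock : ∀ k : ℕ, ∑ n ∈ range (Q * k), F n = (k : ℂ) * ∑ n ∈ range Q, F n := by
    intro k
    induction k with
    | zero => simp
    | succ k ih =>
      rw [Nat.mul_succ, sum_range_add, ih]
      have : ∑ x ∈ range Q, F (Q * k + x) = ∑ n ∈ range Q, F n := by
        refine sum_congr rfl fun x hx => ?_
        rw [← hF (Q * k + x), ← hF x]
        congr 1
        rw [Nat.mul_add_mod]
      rw [this]
      push_cast
      ring
  have hsplit : ∑ n ∈ range N, F n = (N / Q : ℕ) * ∑ n ∈ range Q, F n + ∑ n ∈ range (N % Q), F (Q * (N / Q) + n) := by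
    conv_lhs => rw [← Nat.div_add_mod N Q]
    rw [sum_range_add, hblock]
  have hN : (N : ℂ) = Q * (N / Q : ℕ) + (N % Q : ℕ) := by
    conv_lhs => rw [← Nat.div_add_mod N Q]
    push_cast
    rfl
  have h1 : ∑ n ∈ range N, F n - (N : ℂ) / Q * ∑ n ∈ range Q, F n =
      ∑ n ∈ range (N % Q), F (Q * (N / Q) + n) - ((N % Q : ℕ) : ℂ) / Q * ∑ n ∈ range Q, F n := by
    rw [hsplit, hN]
    have : ((Q : ℂ) * (N / Q : ℕ) + (N % Q : ℕ)) / Q = (N / Q : ℕ) + ((N % Q : ℕ) : ℂ) / Q := by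
      field_simp
    rw [this]
    ring
  rw [h1]
  have hr : ((N % Q : ℕ) : ℝ) ≤ Q := by exact_mod_cast (Nat.mod_lt _ hQ).le
  have h2 : ‖∑ n ∈ range (N % Q), F (Q * (N / Q) + n)‖ ≤ Q := by
    refine (norm_sum_le _ _).trans ?_
    refine (sum_le_sum fun n _ => hB _).trans ?_
    rw [sum_const, card_range, nsmul_eq_mul, mul_one]
    exact hr
  have h3 : ‖∑ n ∈ range Q, F n‖ ≤ Q := by
    refine (norm_sum_le _ _).trans ?_
    refine (sum_le_sum fun n _ => hB _).trans ?_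
    rw [sum_const, card_range, nsmul_eq_mul, mul_one]
  have h4 : ‖((N % Q : ℕ) : ℂ) / Q * ∑ n ∈ range Q, F n‖ ≤ Q := by
    rw [norm_mul, norm_div, Complex.norm_natCast, Complex.norm_natCast]
    calc ((N % Q : ℕ) : ℝ) / Q * ‖∑ n ∈ range Q, F n‖ ≤ 1 * Q := by
          apply mul_le_mul _ h3 (norm_nonneg _) zero_le_one
          rw [div_le_one hQr]; exact hr
      _ = Q := one_mul _
  calc _ ≤ _ := norm_sub_le _ _
    _ ≤ Q + Q := add_le_add h2 h4
    _ = 2 * Q := by ring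

/-- THE MEAN VALUE of a product over primes of functions periodic modulo these primes -/
theorem core (P : Finset ℕ) (hP : ∀ p ∈ P, p.Prime) (X : ℕ → ℕ → ℂ)
    (hX : ∀ p ∈ P, ∀ n, X p (n % p) = X p n) (hX1 : ∀ p ∈ P, ∀ n, ‖X p n‖ ≤ 1) (m : ℕ → ℂ)
    (hm : ∀ p ∈ P, ∑ n ∈ range p, X p n = m p) (y K N : ℕ) (hy1 : 1 ≤ y) (hy : ∀ p ∈ P, p ≤ y)
    (hcard : P.card ≤ y) (hN : 1 ≤ N) {l M M' : ℝ} (hl : 1 ≤ l)
    (hM : (∑ n ∈ range N, ∏ p ∈ P, (1 + l * ‖X p n‖)) ≤ M * N)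
    (hM' : ∏ p ∈ P, (1 + l * (‖m p‖ / p)) ≤ M') :
    ‖(∑ n ∈ range N, ∏ p ∈ P, (1 + X p n)) / N - ∏ p ∈ P, (1 + m p / p)‖ ≤
      2 * Real.exp 1 * (y : ℝ) ^ (2 * K) / N + (M + M') / l ^ K := by
  classical
  have hN0 : (0 : ℝ) < N := by exact_mod_cast hN
  have hNc : (N : ℂ) ≠ 0 := by exact_mod_cast (by omega : N ≠ 0)
  have hy0 : (0 : ℝ) < y := by exact_mod_cast hy1
  have hy1r : (1 : ℝ) ≤ y := by exact_mod_cast hy1
  have hl0 : 0 < l := by linarith
  -- the terms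
  set A : Finset ℕ → ℂ := fun D => (∑ n ∈ range N, ∏ p ∈ D, X p n) / N with hA
  set B : Finset ℕ → ℂ := fun D => ∏ p ∈ D, (m p / p) with hB
  have e1 : (∑ n ∈ range N, ∏ p ∈ P, (1 + X p n)) / N = ∑ D ∈ P.powerset, A D := by
    rw [hA]; dsimp only
    rw [← sum_div, sum_comm]
    congr 1
    refine sum_congr rfl fun n _ => ?_
    rw [prod_one_add]
  have e2 : ∏ p ∈ P, (1 + m p / p) = ∑ D ∈ P.powerset, B D := by
    rw [prod_one_add]
  rw [e1, e2, ← sum_sub_distrib]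
  have hsmall : ∀ D ∈ P.powerset, D.card ≤ K → ‖A D - B D‖ ≤ 2 * (y : ℝ) ^ K / N := by
    intro D hD hDK
    rw [mem_powerset] at hD
    have hDp : ∀ p ∈ D, p.Prime := fun p hp => hP p (hD hp)
    obtain ⟨c1, c2⟩ := crt_prod D hDp X fun p hp => hX p (hD hp)
    have hQ : 0 < ∏ p ∈ D, p := prod_pos fun p hp => (hDp p hp).pos
    have h1 := per_mean hQ (fun n => ∏ p ∈ D, X p n) c1 (fun n => by
      rw [norm_prod]
      exact prod_le_one (fun _ _ => norm_nonneg _) fun p hp => hX1 p (hD hp) n) N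
    rw [c2] at h1
    have h2 : B D = (∏ p ∈ D, ∑ n ∈ range p, X p n) / (∏ p ∈ D, p : ℕ) := by
      rw [hB]; dsimp only
      rw [prod_div_distrib, Nat.cast_prod]
      congr 1
      exact prod_congr rfl fun p hp => (hm p (hD hp)).symm
    have h3 : A D - B D = (∑ n ∈ range N, ∏ p ∈ D, X p n -
        (N : ℂ) / (∏ p ∈ D, p : ℕ) * ∏ p ∈ D, ∑ n ∈ range p, X p n) / N := by
      rw [h2, hA]; dsimp only
      have hQc : ((∏ p ∈ D, p : ℕ) : ℂ) ≠ 0 := by exact_mod_cast hQ.ne'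
      field_simp
    rw [h3, norm_div, Complex.norm_natCast]
    apply div_le_div_of_nonneg_right _ hN0.le
    refine h1.trans ?_
    have h4 : ((∏ p ∈ D, p : ℕ) : ℝ) ≤ (y : ℝ) ^ K := by
      rw [Nat.cast_prod]
      calc ∏ p ∈ D, (p : ℝ) ≤ ∏ _p ∈ D, (y : ℝ) :=
            prod_le_prod (fun _ _ => Nat.cast_nonneg _) fun p hp => by exact_mod_cast hy p (hD hp)
        _ = (y : ℝ) ^ D.card := by rw [prod_const]
        _ ≤ (y : ℝ) ^ K := pow_le_pow_right₀ hy1r hDK
    linarith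
  have hlarge : ∀ D ∈ P.powerset, ¬ D.card ≤ K → ‖A D - B D‖ ≤
      ((∑ n ∈ range N, ∏ p ∈ D, (l * ‖X p n‖)) / N + ∏ p ∈ D, (l * (‖m p‖ / p))) / l ^ K := by
    intro D hD hDK
    push Not at hDK
    have h1 : ‖A D‖ ≤ (∑ n ∈ range N, ∏ p ∈ D, ‖X p n‖) / N := by
      rw [hA]; dsimp only
      rw [norm_div, Complex.norm_natCast]
      apply div_le_div_of_nonneg_right _ hN0.le
      refine (norm_sum_le _ _).trans (le_of_eq ?_)
      exact sum_congr rfl fun n _ => norm_prod _ _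
    have h2 : ‖B D‖ = ∏ p ∈ D, (‖m p‖ / p) := by
      rw [hB]; dsimp only
      rw [norm_prod]
      exact prod_congr rfl fun p _ => by rw [norm_div, Complex.norm_natCast]
    have h3 : ∀ f : ℕ → ℝ, ∏ p ∈ D, (l * f p) = l ^ D.card * ∏ p ∈ D, f p := by
      intro f
      rw [prod_mul_distrib, prod_const]
    have h4 : (1 : ℝ) ≤ l ^ D.card / l ^ K := by
      rw [one_le_div (by positivity)]
      exact pow_le_pow_right₀ hl hDK.le
    simp only [h3]
    rw [← mul_sum, mul_div_assoc, ← mul_add, mul_div_right_comm]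
    have h5 : 0 ≤ (∑ n ∈ range N, ∏ p ∈ D, ‖X p n‖) / N + ∏ p ∈ D, (‖m p‖ / p) := by positivity
    calc ‖A D - B D‖ ≤ ‖A D‖ + ‖B D‖ := norm_sub_le _ _
      _ ≤ (∑ n ∈ range N, ∏ p ∈ D, ‖X p n‖) / N + ∏ p ∈ D, (‖m p‖ / p) := by
          rw [← h2]; linarith
      _ = 1 * _ := (one_mul _).symm
      _ ≤ _ := mul_le_mul_of_nonneg_right h4 h5
  -- the number of the small sets
  have hnum : ((P.powerset.filter fun D => D.card ≤ K).card : ℝ) ≤ Real.exp 1 * (y : ℝ) ^ K := by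
    have h1 : ((P.powerset.filter fun D => D.card ≤ K).card : ℝ) ≤
        ∑ D ∈ P.powerset, (y : ℝ) ^ K * ∏ _p ∈ D, (1 / (y : ℝ)) := by
      rw [card_filter]
      push_cast
      apply sum_le_sum
      intro D _
      rw [prod_const]
      split_ifs with h
      · rw [one_div, inv_pow, ← div_eq_mul_inv, one_le_div (by positivity)]
        exact pow_le_pow_right₀ hy1r h
      · positivity
    refine h1.trans ?_
    rw [← mul_sum, ← prod_one_add, prod_const, mul_comm]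
    apply mul_le_mul_of_nonneg_right _ (by positivity)
    have h2 : 1 + 1 / (y : ℝ) ≤ Real.exp (1 / y) := by
      have := Real.add_one_le_exp (1 / (y : ℝ))
      linarith
    calc (1 + 1 / (y : ℝ)) ^ P.card ≤ (Real.exp (1 / y)) ^ P.card := by gcongr
      _ = Real.exp (P.card * (1 / y)) := by rw [← Real.exp_nat_mul]
      _ ≤ Real.exp 1 := by
          apply Real.exp_le_exp.2
          rw [mul_one_div, div_le_one hy0]
          exact_mod_cast hcard
  calc ‖∑ D ∈ P.powerset, (A D - B D)‖ ≤ ∑ D ∈ P.powerset, ‖A D - B D‖ := norm_sum_le _ _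
    _ ≤ ∑ D ∈ P.powerset, ((if D.card ≤ K then 2 * (y : ℝ) ^ K / N else 0) +
        ((∑ n ∈ range N, ∏ p ∈ D, (l * ‖X p n‖)) / N + ∏ p ∈ D, (l * (‖m p‖ / p))) / l ^ K) := by
        apply sum_le_sum
        intro D hD
        have h0 : 0 ≤ ((∑ n ∈ range N, ∏ p ∈ D, (l * ‖X p n‖)) / N + ∏ p ∈ D, (l * (‖m p‖ / p))) / l ^ K := by
          positivity
        split_ifs with h
        · have := hsmall D hD h
          linarith
        · have := hlarge D hD h
          linarith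
    _ = ((P.powerset.filter fun D => D.card ≤ K).card : ℝ) * (2 * (y : ℝ) ^ K / N) +
        ((∑ n ∈ range N, ∏ p ∈ P, (1 + l * ‖X p n‖)) / N + ∏ p ∈ P, (1 + l * (‖m p‖ / p))) / l ^ K := by
        rw [sum_add_distrib, ← sum_filter, sum_const, nsmul_eq_mul, ← sum_div, sum_add_distrib, ← sum_div,
          sum_comm]
        simp only [prod_one_add]
    _ ≤ (Real.exp 1 * (y : ℝ) ^ K) * (2 * (y : ℝ) ^ K / N) + (M + M') / l ^ K := by
        apply add_le_add
        · exact mul_le_mul_of_nonneg_right hnum (by positivity)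
        · apply div_le_div_of_nonneg_right _ (by positivity)
          apply add_le_add _ hM'
          rw [div_le_iff₀ hN0]
          exact hM
    _ = _ := by
        congr 1
        rw [two_mul K, pow_add]
        ring

end Pool.Agent.W5h45.EK
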