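import Pool.Agent.W5h45.EK.A1

set_option autoImplicit false
set_option linter.unusedSectionVars false
set_option linter.style.haveILetI false

/-!
Mean values of `∏ (1 + ξ_i) ^ ω(a_i n + b_i)`, where `ω` counts the prime factors in a set.
-/

namespace Pool.Agent.W5h45.EK

open Finset

variable {ι : Type} [Fintype ι] [DecidableEq ι]

/-- the sum of the `ξ i` for which `p` divides `a i * n + b i` -/
def Xf {R : Type} [AddCommMonoid R] (a b : ι → ℕ) (ξ : ι → R) (p n : ℕ) : R :=
  ∑ i, if p ∣ a i * n + b i then ξ i else 0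

/-- the number of the prime factors in `P` -/
def om (P : Finset ℕ) (m : ℕ) : ℕ := (P.filter (· ∣ m)).card

/-- conditions on the primes -/
structure Good (a b : ι → ℕ) (P : Finset ℕ) : Prop where
  prime : ∀ p ∈ P, p.Prime
  unit : ∀ p ∈ P, ∀ i, ¬ p ∣ a i
  disj : ∀ p ∈ P, ∀ i j, i ≠ j → ∀ n, ¬ (p ∣ a i * n + b i ∧ p ∣ a j * n + b j)

theorem dich {a b : ι → ℕ} {P : Finset ℕ} (hP : Good a b P) {p : ℕ} (hp : p ∈ P) (n : ℕ) :
    (∀ i, ¬ p ∣ a i * n + b i) ∨ ∃ i, p ∣ a i * n + b i ∧ ∀ j, j ≠ i → ¬ p ∣ a j * n + b j := by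
  by_cases h : ∃ i, p ∣ a i * n + b i
  · obtain ⟨i, hi⟩ := h
    right
    exact ⟨i, hi, fun j hj hd => hP.disj p hp j i hj n ⟨hd, hi⟩⟩
  · left
    push Not at h
    exact h

theorem Xf_zero {R : Type} [AddCommMonoid R] {a b : ι → ℕ} {ξ : ι → R} {p n : ℕ}
    (h : ∀ i, ¬ p ∣ a i * n + b i) : Xf a b ξ p n = 0 := by
  unfold Xf
  exact sum_eq_zero fun i _ => by rw [if_neg (h i)]

theorem Xf_one {R : Type} [AddCommMonoid R] {a b : ι → ℕ} {ξ : ι → R} {p n : ℕ} {i : ι}
    (hi : p ∣ a i * n + b i) (h : ∀ j, j ≠ i → ¬ p ∣ a j * n + b j) : Xf a b ξ p n = ξ i := by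
  unfold Xf
  rw [sum_eq_single i (fun j _ hj => by rw [if_neg (h j hj)]) (fun h => absurd (mem_univ i) h), if_pos hi]

theorem one_add_Xf {R : Type} [CommSemiring R] {a b : ι → ℕ} {P : Finset ℕ} (hP : Good a b P) (ξ : ι → R)
    {p : ℕ} (hp : p ∈ P) (n : ℕ) : 1 + Xf a b ξ p n = ∏ i, if p ∣ a i * n + b i then 1 + ξ i else 1 := by
  rcases dich hP hp n with h | ⟨i, hi, h⟩
  · rw [Xf_zero h, add_zero, prod_eq_one fun i _ => by rw [if_neg (h i)]]
  · rw [Xf_one hi h, prod_eq_single i (fun j _ hj => by rw [if_neg (h j hj)])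
      (fun h => absurd (mem_univ i) h), if_pos hi]

theorem prod_Xf {R : Type} [CommSemiring R] {a b : ι → ℕ} {P : Finset ℕ} (hP : Good a b P) (ξ : ι → R)
    (n : ℕ) : ∏ p ∈ P, (1 + Xf a b ξ p n) = ∏ i, (1 + ξ i) ^ om P (a i * n + b i) := by
  rw [prod_congr rfl fun p hp => one_add_Xf hP ξ hp n, prod_comm]
  refine prod_congr rfl fun i _ => ?_
  rw [← prod_filter, prod_const]
  rfl

theorem norm_Xf {a b : ι → ℕ} {P : Finset ℕ} (hP : Good a b P) (ξ : ι → ℂ) {p : ℕ} (hp : p ∈ P) (n : ℕ) :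
    ‖Xf a b ξ p n‖ = Xf a b (fun i => ‖ξ i‖) p n := by
  rcases dich hP hp n with h | ⟨i, hi, h⟩
  · rw [Xf_zero h, Xf_zero h, norm_zero]
  · rw [Xf_one hi h, Xf_one hi h]

theorem Xf_mod {R : Type} [AddCommMonoid R] (a b : ι → ℕ) (ξ : ι → R) (p n : ℕ) :
    Xf a b ξ p (n % p) = Xf a b ξ p n := by
  unfold Xf
  refine sum_congr rfl fun i _ => ?_
  have h : p ∣ a i * (n % p) + b i ↔ p ∣ a i * n + b i := by
    have h1 : a i * (n % p) + b i ≡ a i * n + b i [MOD p] :=
      Nat.ModEq.add_right _ (Nat.ModEq.mul_left _ (Nat.mod_modEq _ _))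
    exact h1.dvd_iff dvd_rfl
  simp only [h]

theorem one_class {p a : ℕ} (hp : p.Prime) (ha : ¬ p ∣ a) (b : ℕ) :
    ((range p).filter fun n => p ∣ a * n + b).card = 1 := by
  haveI : Fact p.Prime := ⟨hp⟩
  have ha' : (a : ZMod p) ≠ 0 := by rwa [Ne, ZMod.natCast_eq_zero_iff]
  rw [card_eq_one]
  refine ⟨(-(b : ZMod p) / a).val, ?_⟩
  ext n
  rw [mem_filter, mem_range, mem_singleton]
  constructor
  · rintro ⟨h1, h2⟩
    rw [← ZMod.natCast_eq_zero_iff] at h2
    push_cast at h2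
    have h3 : (n : ZMod p) = -(b : ZMod p) / a := by
      rw [eq_div_iff ha']
      linear_combination h2
    rw [← h3, ZMod.val_cast_of_lt h1]
  · rintro rfl
    refine ⟨ZMod.val_lt _, ?_⟩
    rw [← ZMod.natCast_eq_zero_iff]
    push_cast
    rw [ZMod.natCast_zmod_val]
    field_simp
    ring

theorem sum_Xf {a b : ι → ℕ} {P : Finset ℕ} (hP : Good a b P) (ξ : ι → ℂ) {p : ℕ} (hp : p ∈ P) :
    ∑ n ∈ range p, Xf a b ξ p n = ∑ i, ξ i := by
  unfold Xf
  rw [sum_comm]
  refine sum_congr rfl fun i _ => ?_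
  rw [← sum_filter, sum_const, one_class (hP.prime p hp) (hP.unit p hp i), one_smul]

/-- the number of the `n < N` with `Q ∣ a n + b` -/
theorem class_card {Q a : ℕ} (hQ : 0 < Q) (ha : Nat.Coprime a Q) (b N : ℕ) :
    ((range N).filter fun n => Q ∣ a * n + b).card ≤ N / Q + 1 := by
  rcases (((range N).filter fun n => Q ∣ a * n + b)).eq_empty_or_nonempty with h | ⟨v, hv⟩
  · rw [h]; simp
  · have h1 : ((range N).filter fun n => Q ∣ a * n + b) ⊆ (range N).filter fun n => n ≡ v [MOD Q] := by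
      intro n hn
      rw [mem_filter] at hn hv ⊢
      refine ⟨hn.1, ?_⟩
      have h2 : a * n + b ≡ a * v + b [MOD Q] :=
        ((Nat.modEq_zero_iff_dvd).2 hn.2).trans ((Nat.modEq_zero_iff_dvd).2 hv.2).symm
      have h3 : a * n ≡ a * v [MOD Q] := Nat.ModEq.add_right_cancel' b h2
      exact Nat.ModEq.cancel_left_of_coprime (by rw [Nat.gcd_comm]; exact ha) h3
    refine (card_le_card h1).trans ?_
    rw [← Nat.count_eq_card_filter_range, Nat.count_modEq_card N hQ v]
    split_ifs <;> omega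

theorem class_card' {Q a b N C : ℕ} (hQ : 0 < Q) (ha : Nat.Coprime a Q) (hb : 1 ≤ b) (hN : 1 ≤ N)
    (hC : a + b ≤ C) :
    (((range N).filter fun n => Q ∣ a * n + b).card : ℝ) ≤ (1 + C) * N / Q := by
  have hQ0 : (0 : ℝ) < Q := by exact_mod_cast hQ
  rw [le_div_iff₀ hQ0]
  by_cases h : Q ≤ C * N
  · have h1 := class_card hQ ha b N
    have h2 : (((range N).filter fun n => Q ∣ a * n + b).card : ℝ) ≤ N / Q + 1 := by
      calc (((range N).filter fun n => Q ∣ a * n + b).card : ℝ) ≤ ((N / Q + 1 : ℕ) : ℝ) := by exact_mod_cast h1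
        _ = ((N / Q : ℕ) : ℝ) + 1 := by push_cast; rfl
        _ ≤ (N : ℝ) / Q + 1 := by gcongr; exact Nat.cast_div_le
    have h3 : (Q : ℝ) ≤ C * N := by exact_mod_cast h
    calc (((range N).filter fun n => Q ∣ a * n + b).card : ℝ) * Q ≤ ((N : ℝ) / Q + 1) * Q := by gcongr
      _ = N + Q := by field_simp
      _ ≤ (1 + C) * N := by linarith
  · have h1 : ((range N).filter fun n => Q ∣ a * n + b) = ∅ := by
      rw [filter_eq_empty_iff]
      intro n hn hd
      rw [mem_range] at hn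
      have h2 := Nat.le_of_dvd (by omega) hd
      apply h
      calc Q ≤ a * n + b := h2
        _ ≤ a * N + b * N := by
            apply Nat.add_le_add (Nat.mul_le_mul_left _ hn.le)
            exact Nat.le_mul_of_pos_right _ hN
        _ = (a + b) * N := by ring
        _ ≤ C * N := Nat.mul_le_mul_right _ hC
    rw [h1, card_empty, Nat.cast_zero, zero_mul]
    positivity

/-- exponential moments of the number of the prime factors in `P` -/
theorem exp_moment {a b : ι → ℕ} {P : Finset ℕ} (hP : Good a b P) (i : ι) (hb : 1 ≤ b i) {N C : ℕ}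
    (hN : 1 ≤ N) (hC : a i + b i ≤ C) {θ : ℝ} (hθ : 0 ≤ θ) :
    ∑ n ∈ range N, (1 + θ) ^ om P (a i * n + b i) ≤ (1 + C) * N * Real.exp (θ * ∑ p ∈ P, 1 / (p : ℝ)) := by
  have h1 : ∀ n, (1 + θ) ^ om P (a i * n + b i) =
      ∑ D ∈ P.powerset, θ ^ D.card * if (∏ p ∈ D, p) ∣ a i * n + b i then 1 else 0 := by
    intro n
    have h2 : (1 + θ) ^ om P (a i * n + b i) = ∏ p ∈ P, (1 + if p ∣ a i * n + b i then θ else 0) := by
      unfold om
      rw [← prod_const, prod_filter]
      refine prod_congr rfl fun p _ => ?_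
      split_ifs <;> simp
    rw [h2, prod_one_add]
    refine sum_congr rfl fun D hD => ?_
    rw [mem_powerset] at hD
    by_cases h3 : (∏ p ∈ D, p) ∣ a i * n + b i
    · rw [if_pos h3, mul_one, ← prod_const]
      refine prod_congr rfl fun p hp => ?_
      rw [if_pos ((dvd_prod_of_mem _ hp).trans h3)]
    · rw [if_neg h3, mul_zero]
      have h4 : ∃ p ∈ D, ¬ p ∣ a i * n + b i := by
        by_contra hcon
        push Not at hcon
        apply h3
        apply prod_primes_dvd
        · intro p hp; exact (hP.prime p (hD hp)).prime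
        · exact hcon
      obtain ⟨p, hp, h5⟩ := h4
      exact prod_eq_zero hp (by rw [if_neg h5])
  simp only [h1]
  rw [sum_comm]
  have h2 : ∀ D ∈ P.powerset, ∑ n ∈ range N, (θ ^ D.card * if (∏ p ∈ D, p) ∣ a i * n + b i then (1 : ℝ) else 0) ≤
      (1 + C) * N * ∏ p ∈ D, (θ * (1 / (p : ℝ))) := by
    intro D hD
    rw [mem_powerset] at hD
    rw [← mul_sum, sum_boole]
    have h3 : 0 < ∏ p ∈ D, p := prod_pos fun p hp => (hP.prime p (hD hp)).pos
    have h4 : Nat.Coprime (a i) (∏ p ∈ D, p) := by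
      apply Nat.Coprime.prod_right
      intro p hp
      rw [Nat.coprime_comm, (hP.prime p (hD hp)).coprime_iff_not_dvd]
      exact hP.unit p (hD hp) i
    have h5 := class_card' h3 h4 hb hN hC
    rw [prod_mul_distrib, prod_const]
    have h6 : ∏ p ∈ D, (1 / (p : ℝ)) = 1 / ((∏ p ∈ D, p : ℕ) : ℝ) := by
      rw [prod_div_distrib, prod_const_one, Nat.cast_prod]
    rw [h6]
    calc θ ^ D.card * (((range N).filter fun n => (∏ p ∈ D, p) ∣ a i * n + b i).card : ℝ) ≤
        θ ^ D.card * ((1 + C) * N / ((∏ p ∈ D, p : ℕ) : ℝ)) := by gcongr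
      _ = _ := by ring
  refine (sum_le_sum h2).trans ?_
  rw [← mul_sum, ← prod_one_add]
  apply mul_le_mul_of_nonneg_left _ (by positivity)
  rw [mul_sum, Real.exp_sum]
  apply prod_le_prod
  · intro p _; positivity
  · intro p _
    have := Real.add_one_le_exp (θ * (1 / (p : ℝ)))
    linarith

theorem exp_sub_one {u : ℝ} (hu : 0 ≤ u) (hu1 : u ≤ 1) : Real.exp u - 1 ≤ 2 * u := by
  have h := Real.abs_exp_sub_one_le (x := u) (by rw [abs_of_nonneg hu]; exact hu1)
  rw [abs_of_nonneg hu] at h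
  exact (le_abs_self _).trans h

/-- THE MEAN VALUE of `∏ (1 + ξ_i) ^ ω(a_i n + b_i)` -/
theorem forms_mean {a b : ι → ℕ} {P : Finset ℕ} (hP : Good a b P) (hb : ∀ i, 1 ≤ b i) (ξ : ι → ℂ)
    {η l : ℝ} (hξ : ∀ i, ‖ξ i‖ ≤ η) (hη : 0 ≤ η) (hl : 1 ≤ l) (hηl : (Fintype.card ι + 1 : ℝ) * l * η ≤ 1)
    {y K N C : ℕ} (hy1 : 1 ≤ y) (hy : ∀ p ∈ P, p ≤ y) (hN : 1 ≤ N) (hC : ∀ i, a i + b i ≤ C) :
    ‖(∑ n ∈ range N, ∏ i, (1 + ξ i) ^ om P (a i * n + b i)) / N - ∏ p ∈ P, (1 + (∑ i, ξ i) / p)‖ ≤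
      2 * Real.exp 1 * (y : ℝ) ^ (2 * K) / N +
        (2 + Fintype.card ι * (1 + C)) * Real.exp (2 * (Fintype.card ι + 1) * l * η * ∑ p ∈ P, 1 / (p : ℝ)) / l ^ K := by
  classical
  set d : ℝ := (Fintype.card ι : ℝ) with hd
  have hd0 : 0 ≤ d := by rw [hd]; positivity
  set S : ℝ := ∑ p ∈ P, 1 / (p : ℝ) with hS
  have hS0 : 0 ≤ S := by rw [hS]; positivity
  have hN0 : (0 : ℝ) < N := by exact_mod_cast hN
  have hl0 : 0 < l := by linarith
  have hη1 : η ≤ 1 := by
    have h1 : η ≤ (d + 1) * l * η := by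
      have : 1 ≤ (d + 1) * l := by nlinarith
      nlinarith
    linarith
  have hcard : P.card ≤ y := by
    have h1 : P ⊆ Finset.Icc 1 y := by
      intro p hp
      rw [mem_Icc]
      exact ⟨(hP.prime p hp).one_lt.le, hy p hp⟩
    calc P.card ≤ (Finset.Icc 1 y).card := card_le_card h1
      _ = y := by simp
  have hX1 : ∀ p ∈ P, ∀ n, ‖Xf a b ξ p n‖ ≤ 1 := by
    intro p hp n
    rcases dich hP hp n with h | ⟨i, hi, h⟩
    · rw [Xf_zero h, norm_zero]; exact zero_le_one
    · rw [Xf_one hi h]; exact (hξ i).trans hη1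
  set θ : ℝ := Real.exp ((d + 1) * l * η) - 1 with hθ
  have hu0 : 0 ≤ (d + 1) * l * η := by positivity
  have hθ0 : 0 ≤ θ := by
    have := Real.one_le_exp hu0
    rw [hθ]; linarith
  have hθ2 : θ ≤ 2 * ((d + 1) * l * η) := exp_sub_one hu0 hηl
  set E : ℝ := Real.exp (2 * (d + 1) * l * η * S) with hE
  have hE1 : 1 ≤ E := by
    rw [hE]
    apply Real.one_le_exp
    positivity
  -- the exponential moment
  have hM : (∑ n ∈ range N, ∏ p ∈ P, (1 + l * ‖Xf a b ξ p n‖)) ≤ (1 + d * (1 + C) * E) * N := by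
    have h1 : ∀ n, ∏ p ∈ P, (1 + l * ‖Xf a b ξ p n‖) ≤ 1 + ∑ i, (1 + θ) ^ om P (a i * n + b i) := by
      intro n
      have h2 : ∏ p ∈ P, (1 + l * ‖Xf a b ξ p n‖) = ∏ i, (1 + l * ‖ξ i‖) ^ om P (a i * n + b i) := by
        rw [← prod_Xf hP (fun i => l * ‖ξ i‖) n]
        refine prod_congr rfl fun p hp => ?_
        rw [norm_Xf hP ξ hp]
        congr 1
        unfold Xf
        rw [mul_sum]
        refine sum_congr rfl fun i _ => ?_
        split_ifs <;> simp
      rw [h2]
      rcases isEmpty_or_nonempty ι with he | hne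
      · simp
      · obtain ⟨i₀, _, hi₀⟩ := exists_max_image (univ : Finset ι) (fun i => om P (a i * n + b i))
          univ_nonempty
        have h3 : ∏ i, (1 + l * ‖ξ i‖) ^ om P (a i * n + b i) ≤ (1 + θ) ^ om P (a i₀ * n + b i₀) := by
          calc ∏ i, (1 + l * ‖ξ i‖) ^ om P (a i * n + b i) ≤
              ∏ _i : ι, (Real.exp (l * η)) ^ om P (a i₀ * n + b i₀) := by
                apply prod_le_prod
                · intro i _; positivity
                · intro i _
                  have h4 : 1 + l * ‖ξ i‖ ≤ Real.exp (l * η) := by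
                    have h5 := Real.add_one_le_exp (l * η)
                    have h6 : l * ‖ξ i‖ ≤ l * η := by gcongr; exact hξ i
                    linarith
                  have h7 : 1 ≤ Real.exp (l * η) := Real.one_le_exp (by positivity)
                  calc (1 + l * ‖ξ i‖) ^ om P (a i * n + b i) ≤ (Real.exp (l * η)) ^ om P (a i * n + b i) := by
                        gcongr
                    _ ≤ _ := pow_le_pow_right₀ h7 (hi₀ i (mem_univ i))
            _ = (Real.exp (d * (l * η))) ^ om P (a i₀ * n + b i₀) := by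
                have e3 : Real.exp (d * (l * η)) = Real.exp (l * η) ^ Fintype.card ι := by
                  rw [hd, Real.exp_nat_mul]
                rw [e3, prod_const, card_univ, ← pow_mul, ← pow_mul, Nat.mul_comm]
            _ ≤ _ := by
                apply pow_le_pow_left₀ (by positivity)
                rw [hθ, add_sub_cancel]
                apply Real.exp_le_exp.2
                have : 0 ≤ l * η := by positivity
                nlinarith
        have h4 : (1 + θ) ^ om P (a i₀ * n + b i₀) ≤ ∑ i, (1 + θ) ^ om P (a i * n + b i) :=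
          single_le_sum (f := fun i => (1 + θ) ^ om P (a i * n + b i)) (fun i _ => by positivity)
            (mem_univ i₀)
        linarith
    refine (sum_le_sum fun n _ => h1 n).trans ?_
    rw [sum_add_distrib, sum_comm]
    have h2 : ∀ i ∈ (univ : Finset ι), ∑ n ∈ range N, (1 + θ) ^ om P (a i * n + b i) ≤ (1 + C) * N * E := by
      intro i _
      refine (exp_moment hP i (hb i) hN (hC i) hθ0).trans ?_
      apply mul_le_mul_of_nonneg_left _ (by positivity)
      apply Real.exp_le_exp.2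
      calc θ * S ≤ 2 * ((d + 1) * l * η) * S := by gcongr
        _ = _ := by ring
    have h3 := sum_le_sum h2
    rw [sum_const, card_univ, nsmul_eq_mul] at h3
    simp only [sum_const, card_range, nsmul_eq_mul, mul_one]
    calc (N : ℝ) + ∑ i, ∑ n ∈ range N, (1 + θ) ^ om P (a i * n + b i) ≤ N + d * ((1 + C) * N * E) := by
          gcongr
      _ = _ := by ring
  have hx : ‖∑ i, ξ i‖ ≤ d * η := by
    refine (norm_sum_le _ _).trans ?_
    refine (sum_le_sum fun i _ => hξ i).trans ?_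
    rw [sum_const, card_univ, nsmul_eq_mul]
  have hM' : ∏ p ∈ P, (1 + l * (‖(∑ i, ξ i : ℂ)‖ / p)) ≤ E := by
    have h1 : ∏ p ∈ P, (1 + l * (‖(∑ i, ξ i : ℂ)‖ / p)) ≤ ∏ p ∈ P, Real.exp (l * (d * η) * (1 / p)) := by
      apply prod_le_prod
      · intro p _; positivity
      · intro p _
        have h2 := Real.add_one_le_exp (l * (d * η) * (1 / (p : ℝ)))
        have h3 : l * (‖(∑ i, ξ i : ℂ)‖ / p) ≤ l * (d * η) * (1 / (p : ℝ)) := by
          rw [mul_one_div, mul_div_assoc]
          gcongr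
        linarith
    refine h1.trans ?_
    rw [← Real.exp_sum, ← mul_sum]
    apply Real.exp_le_exp.2
    have : 0 ≤ l * η * S := by positivity
    nlinarith
  have h := core P hP.prime (Xf a b ξ) (fun p _ n => Xf_mod a b ξ p n) hX1 (fun _ => ∑ i, ξ i)
    (fun p hp => sum_Xf hP ξ hp) y K N hy1 hy hcard hN hl hM hM'
  simp only [prod_Xf hP ξ] at h
  refine h.trans ?_
  apply add_le_add le_rfl
  apply div_le_div_of_nonneg_right _ (by positivity)
  nlinarith

end Pool.Agent.W5h45.EK
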