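import Pool.Agent.W5h45.EK.A2
import Pool.Agent.Helper923.HMertens

set_option autoImplicit false

/-!
The parameters: `L = log log N`, `K = ⌈L⌉`, `y = ⌊N ^ (1 / (4 K))⌋`, and the sum of `1 / p` over `q < p ≤ y`.
-/

namespace Pool.Agent.W5h45.EK

open Finset Filter Topology

noncomputable def Lg (N : ℕ) : ℝ := Real.log (Real.log N)
noncomputable def Kn (N : ℕ) : ℕ := ⌈Lg N⌉₊
noncomputable def yn (N : ℕ) : ℕ := ⌊Real.exp (Real.log N / (4 * Kn N))⌋₊
noncomputable def Pn (q N : ℕ) : Finset ℕ := (Finset.Ioc q (yn N)).filter Nat.Prime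
noncomputable def Sn (q N : ℕ) : ℝ := ∑ p ∈ Pn q N, 1 / (p : ℝ)

theorem log_top : Tendsto (fun N : ℕ => Real.log (N : ℝ)) atTop atTop :=
  Real.tendsto_log_atTop.comp tendsto_natCast_atTop_atTop

theorem Lg_top : Tendsto Lg atTop atTop := Real.tendsto_log_atTop.comp log_top

theorem sqL_top : Tendsto (fun N => Real.sqrt (Lg N)) atTop atTop := Real.tendsto_sqrt_atTop.comp Lg_top

/-- `(C + log (16 x)) / √x → 0` -/
theorem small_log (C : ℝ) : Tendsto (fun x : ℝ => (C + Real.log (16 * x)) / Real.sqrt x) atTop (𝓝 0) := by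
  have h1 : Tendsto (fun x : ℝ => Real.log x / Real.sqrt x) atTop (𝓝 0) := by
    have h := (isLittleO_log_rpow_atTop (r := 1 / 2) (by norm_num)).tendsto_div_nhds_zero
    refine h.congr fun x => ?_
    rw [Real.sqrt_eq_rpow]
  have h2 : Tendsto (fun x : ℝ => (C + Real.log 16) / Real.sqrt x) atTop (𝓝 0) :=
    tendsto_const_nhds.div_atTop Real.tendsto_sqrt_atTop
  have h3 := h2.add h1
  rw [add_zero] at h3
  refine h3.congr' ?_
  filter_upwards [eventually_gt_atTop 0] with x hx
  rw [Real.log_mul (by norm_num) hx.ne']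
  ring

theorem Kn_bd {N : ℕ} (h : 1 ≤ Lg N) : Lg N ≤ Kn N ∧ (Kn N : ℝ) ≤ 2 * Lg N ∧ 1 ≤ Kn N := by
  have h1 := Nat.le_ceil (Lg N)
  have h2 := Nat.ceil_lt_add_one (by linarith : 0 ≤ Lg N)
  refine ⟨h1, ?_, ?_⟩
  · change ((⌈Lg N⌉₊ : ℕ) : ℝ) ≤ _
    linarith
  · have : (1 : ℝ) ≤ Kn N := h.trans h1
    exact_mod_cast this

theorem ratio_top : Tendsto (fun N : ℕ => Real.log (N : ℝ) / (16 * Lg N)) atTop atTop := by
  have h1 : Tendsto (fun x : ℝ => x / (16 * Real.log x)) atTop atTop := by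
    have h2 : Tendsto (fun x : ℝ => 16 * (Real.log x / x)) atTop (𝓝 0) := by
      have := (Real.isLittleO_log_id_atTop.tendsto_div_nhds_zero).const_mul 16
      simpa using this
    have h3 : ∀ᶠ x : ℝ in atTop, 0 < 16 * (Real.log x / x) := by
      filter_upwards [eventually_gt_atTop 1] with x hx
      have : 0 < Real.log x := Real.log_pos hx
      positivity
    have h5 : Tendsto (fun x : ℝ => 16 * (Real.log x / x)) atTop (𝓝[>] (0 : ℝ)) :=
      tendsto_nhdsWithin_iff.2 ⟨h2, h3⟩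
    have h4 := h5.inv_tendsto_nhdsGT_zero
    refine h4.congr fun x => ?_
    simp only [Pi.inv_apply]
    rw [mul_div_assoc', inv_div]
  exact h1.comp log_top

/-- facts on `y` -/
theorem yn_bd : ∀ᶠ N : ℕ in atTop, 1 ≤ Lg N ∧ 1 ≤ Real.log N ∧ 1 ≤ yn N ∧
    (yn N : ℝ) ^ (2 * Kn N) ≤ Real.exp (Real.log N / 2) ∧
    Real.log N / (8 * Kn N) ≤ Real.log (yn N) ∧ Real.log (yn N) ≤ Real.log N ∧
    1 ≤ Real.log N / (8 * Kn N) := by
  filter_upwards [Lg_top.eventually_ge_atTop 1, log_top.eventually_ge_atTop 1, ratio_top.eventually_ge_atTop 1]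
    with N h1 h2 h3
  obtain ⟨k1, k2, k3⟩ := Kn_bd h1
  have hK0 : (0 : ℝ) < Kn N := by exact_mod_cast k3
  have hL0 : 0 < Lg N := by linarith
  have h4 : 1 ≤ Real.log N / (8 * Kn N) := by
    rw [one_le_div (by positivity)]
    rw [one_le_div (by positivity)] at h3
    linarith
  set u : ℝ := Real.log N / (4 * Kn N) with hu
  have hu2 : u = 2 * (Real.log N / (8 * Kn N)) := by rw [hu]; field_simp; norm_num
  have hu1 : 2 ≤ u := by rw [hu2]; linarith
  have he : Real.exp u ≥ 2 := by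
    have := Real.add_one_le_exp u
    linarith
  have hy1 : (1 : ℝ) ≤ yn N := by
    have : 1 ≤ yn N := by
      unfold yn
      rw [Nat.one_le_floor_iff]
      linarith
    exact_mod_cast this
  have hyle : (yn N : ℝ) ≤ Real.exp u := Nat.floor_le (Real.exp_pos _).le
  have hyge : Real.exp u / 2 ≤ yn N := by
    have := Nat.lt_floor_add_one (Real.exp u)
    change Real.exp u / 2 ≤ ((⌊Real.exp u⌋₊ : ℕ) : ℝ)
    linarith
  have hy0 : (0 : ℝ) < yn N := by linarith
  refine ⟨h1, h2, by exact_mod_cast hy1, ?_, ?_, ?_, h4⟩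
  · calc (yn N : ℝ) ^ (2 * Kn N) ≤ (Real.exp u) ^ (2 * Kn N) := by gcongr
      _ = Real.exp ((2 * Kn N : ℕ) * u) := by rw [Real.exp_nat_mul]
      _ = Real.exp (Real.log N / 2) := by
          congr 1
          rw [hu]
          push_cast
          field_simp
          norm_num
  · have h5 : Real.log (Real.exp u / 2) ≤ Real.log (yn N) := Real.log_le_log (by positivity) hyge
    rw [Real.log_div (Real.exp_pos _).ne' (by norm_num), Real.log_exp] at h5
    have := Real.log_two_lt_d9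
    linarith
  · have h5 : Real.log (yn N) ≤ u := by
      rw [← Real.log_exp u]
      exact Real.log_le_log hy0 hyle
    refine h5.trans ?_
    rw [hu]
    apply div_le_self (by linarith)
    have : (1 : ℝ) ≤ Kn N := by exact_mod_cast k3
    linarith

/-- Mertens -/
theorem Sn_bd (q : ℕ) (hq : 2 ≤ q) : ∃ C : ℝ, 0 ≤ C ∧ ∀ᶠ N : ℕ in atTop,
    |Sn q N - Lg N| ≤ C + Real.log (16 * Lg N) := by
  obtain ⟨C, hC0, hC⟩ := Pool.Agent.Helper923.HMertens.mertens_ratio
  have hq1 : (1 : ℝ) < q := by exact_mod_cast (by omega : 1 < q)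
  have hlq : 0 < Real.log q := Real.log_pos hq1
  refine ⟨C / Real.log q + |Real.log (Real.log q)|, by positivity, ?_⟩
  have htop : Tendsto (fun N : ℕ => Real.log (N : ℝ) / (8 * Kn N)) atTop atTop := by
    refine tendsto_atTop_mono' _ ?_ ratio_top
    filter_upwards [Lg_top.eventually_ge_atTop 1, log_top.eventually_ge_atTop 1] with N h1 h2
    obtain ⟨_, k2, k3⟩ := Kn_bd h1
    have hK0 : (0 : ℝ) < Kn N := by exact_mod_cast k3
    apply div_le_div_of_nonneg_left (by linarith) (by positivity)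
    linarith
  filter_upwards [yn_bd, Lg_top.eventually_ge_atTop 1, htop.eventually_ge_atTop (Real.log q)]
    with N hN h1 hqy
  obtain ⟨_, h2, hy1, _, hylo, hyhi, h4⟩ := hN
  obtain ⟨k1, k2, k3⟩ := Kn_bd h1
  have hK0 : (0 : ℝ) < Kn N := by exact_mod_cast k3
  have hy0 : (0 : ℝ) < yn N := by exact_mod_cast hy1
  have hly : 1 ≤ Real.log (yn N) := h4.trans hylo
  have hqyn : q ≤ yn N := by
    have h5 : Real.log q ≤ Real.log (yn N) := hqy.trans hylo
    have h6 := (Real.log_le_log_iff (by linarith) hy0).1 h5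
    exact_mod_cast h6
  have h5 := hC q (yn N) hq hqyn
  have e1 : Real.log (Real.log (yn N) / Real.log q) = Real.log (Real.log (yn N)) - Real.log (Real.log q) :=
    Real.log_div (by linarith) hlq.ne'
  rw [e1] at h5
  change |Sn q N - _| ≤ _ at h5
  have h6 : Real.log (Real.log (yn N)) ≤ Lg N := Real.log_le_log (by linarith) hyhi
  have h7 : Lg N - Real.log (16 * Lg N) ≤ Real.log (Real.log (yn N)) := by
    have h8 : Real.log (Real.log N / (8 * Kn N)) ≤ Real.log (Real.log (yn N)) :=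
      Real.log_le_log (by linarith) hylo
    rw [Real.log_div (by linarith) (by positivity)] at h8
    have h9 : Real.log (8 * Kn N) ≤ Real.log (16 * Lg N) :=
      Real.log_le_log (by positivity) (by linarith)
    change Lg N - _ ≤ _ at h8
    linarith
  have h8 : 0 ≤ Real.log (16 * Lg N) := Real.log_nonneg (by linarith)
  have h9 := abs_le.1 h5
  have h10 := neg_abs_le (Real.log (Real.log q))
  have h11 := le_abs_self (Real.log (Real.log q))
  rw [abs_le]
  constructor <;> linarith [h9.1, h9.2]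

theorem rn_lim (q : ℕ) (hq : 2 ≤ q) :
    Tendsto (fun N => (Sn q N - Lg N) / Real.sqrt (Lg N)) atTop (𝓝 0) := by
  obtain ⟨C, hC0, hC⟩ := Sn_bd q hq
  have h1 := (small_log C).comp Lg_top
  apply squeeze_zero_norm' _ h1
  filter_upwards [hC, Lg_top.eventually_ge_atTop 1] with N h2 h3
  have h4 : 0 < Real.sqrt (Lg N) := Real.sqrt_pos.2 (by linarith)
  rw [norm_div, Real.norm_eq_abs, Real.norm_eq_abs, abs_of_pos h4]
  exact div_le_div_of_nonneg_right h2 h4.le

end Pool.Agent.W5h45.EK
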