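import Pool.Agent.W5h45.EK.A3

set_option autoImplicit false
set_option linter.unusedSectionVars false

/-!
The characteristic functions of the numbers of the medium prime factors of the values of linear forms.
-/

namespace Pool.Agent.W5h45.EK

open Finset Filter Topology

variable {ι : Type} [Fintype ι] [DecidableEq ι]

/-- pairwise independent linear forms `a i * n + b i` with positive coefficients -/
structure Fm (a b : ι → ℕ) : Prop where
  a1 : ∀ i, 1 ≤ a i
  b1 : ∀ i, 1 ≤ b i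
  res : ∀ i j, i ≠ j → a i * b j ≠ a j * b i

def q0 (a b : ι → ℕ) : ℕ := 2 + ∑ i, a i + ∑ i, ∑ j, a i * b j

theorem q0_a (a b : ι → ℕ) (i : ι) : a i ≤ q0 a b := by
  have h := single_le_sum (f := a) (fun _ _ => Nat.zero_le _) (mem_univ i)
  unfold q0
  omega

theorem q0_ab (a b : ι → ℕ) (i j : ι) : a i * b j ≤ q0 a b := by
  have h : (∑ j, a i * b j) ≤ ∑ i, ∑ j, a i * b j :=
    single_le_sum (f := fun i => ∑ j, a i * b j) (fun _ _ => Nat.zero_le _) (mem_univ i)
  have h2 : a i * b j ≤ ∑ j, a i * b j :=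
    single_le_sum (f := fun j => a i * b j) (fun _ _ => Nat.zero_le _) (mem_univ j)
  unfold q0
  omega

theorem good_of {a b : ι → ℕ} (h : Fm a b) (N : ℕ) : Good a b (Pn (q0 a b) N) where
  prime := fun p hp => (mem_filter.1 hp).2
  unit := by
    intro p hp i hd
    unfold Pn at hp
    rw [mem_filter, mem_Ioc] at hp
    have h1 := Nat.le_of_dvd (h.a1 i) hd
    have h2 := q0_a a b i
    omega
  disj := by
    rintro p hp i j hij n ⟨h1, h2⟩
    unfold Pn at hp
    rw [mem_filter, mem_Ioc] at hp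
    have h3 : (p : ℤ) ∣ (a j : ℤ) * b i - a i * b j := by
      have g1 : (p : ℤ) ∣ (a i : ℤ) * n + b i := by exact_mod_cast h1
      have g2 : (p : ℤ) ∣ (a j : ℤ) * n + b j := by exact_mod_cast h2
      have g3 : (a j : ℤ) * b i - a i * b j = a j * (a i * n + b i) - a i * (a j * n + b j) := by ring
      rw [g3]
      exact dvd_sub (g1.mul_left _) (g2.mul_left _)
    have h4 : (a j : ℤ) * b i - a i * b j ≠ 0 := by
      intro h5
      apply h.res i j hij
      have : (a j : ℤ) * b i = a i * b j := by linarith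
      exact_mod_cast this.symm
    have h5 := Int.natAbs_dvd_natAbs.2 h3
    rw [Int.natAbs_natCast] at h5
    have h6 := Nat.le_of_dvd (Int.natAbs_pos.2 h4) h5
    have h7 := q0_ab a b i j
    have h8 := q0_ab a b j i
    have h9 : ((a j : ℤ) * b i - a i * b j).natAbs ≤ q0 a b := by
      have e1 : (a j : ℤ) * b i = ((a j * b i : ℕ) : ℤ) := by push_cast; rfl
      have e2 : (a i : ℤ) * b j = ((a i * b j : ℕ) : ℤ) := by push_cast; rfl
      rw [e1, e2]
      omega
    omega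

theorem sq_T {N : ℕ} (h : 1 ≤ Lg N) : Real.sqrt (Lg N) ^ 2 = Lg N := Real.sq_sqrt (by linarith)

/-- the second order term -/
theorem second (s : ℝ) : Tendsto (fun N : ℕ => (Lg N : ℂ) *
    (Complex.exp (Complex.I * ((s / Real.sqrt (Lg N) : ℝ) : ℂ)) - 1 -
      Complex.I * ((s / Real.sqrt (Lg N) : ℝ) : ℂ))) atTop (𝓝 (-((s ^ 2 / 2 : ℝ) : ℂ))) := by
  rw [tendsto_iff_norm_sub_tendsto_zero]
  have h1 : Tendsto (fun N : ℕ => |s| ^ 3 / Real.sqrt (Lg N)) atTop (𝓝 0) :=
    tendsto_const_nhds.div_atTop sqL_top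
  apply squeeze_zero' (Eventually.of_forall fun _ => norm_nonneg _) _ h1
  filter_upwards [Lg_top.eventually_ge_atTop 1, sqL_top.eventually_ge_atTop (max 1 |s|)] with N h2 h3
  set T := Real.sqrt (Lg N) with hT
  have hT0 : 0 < T := lt_of_lt_of_le one_pos ((le_max_left _ _).trans h3)
  have hTs : |s| ≤ T := (le_max_right _ _).trans h3
  have hTT : T ^ 2 = Lg N := sq_T h2
  set z : ℂ := Complex.I * ((s / T : ℝ) : ℂ) with hz
  have hnz : ‖z‖ = |s| / T := by
    rw [hz, norm_mul, Complex.norm_I, one_mul, Complex.norm_real, Real.norm_eq_abs, abs_div,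
      abs_of_pos hT0]
  have hz1 : ‖z‖ ≤ 1 := by
    rw [hnz, div_le_one hT0]; exact hTs
  have h4 := Complex.exp_bound hz1 (n := 3) (by norm_num)
  have e1 : ∑ m ∈ range 3, z ^ m / (m.factorial : ℂ) = 1 + z + z ^ 2 / 2 := by
    simp [sum_range_succ, Nat.factorial]
  rw [e1] at h4
  have h5 : ‖z‖ ^ 3 * (((3 : ℕ).succ : ℝ) * (((3 : ℕ).factorial : ℝ) * (3 : ℕ))⁻¹) ≤ ‖z‖ ^ 3 := by
    apply mul_le_of_le_one_right (by positivity)
    norm_num [Nat.factorial]
  have h6 := h4.trans h5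
  have hz2 : z ^ 2 = -((s ^ 2 / Lg N : ℝ) : ℂ) := by
    rw [hz, mul_pow, Complex.I_sq, ← Complex.ofReal_pow, div_pow, hTT]
    ring
  have hLc : ((Lg N : ℝ) : ℂ) ≠ 0 := by
    have : Lg N ≠ 0 := by linarith
    exact_mod_cast this
  have e2 : (Lg N : ℂ) * (Complex.exp z - 1 - z) - -((s ^ 2 / 2 : ℝ) : ℂ) =
      (Lg N : ℂ) * (Complex.exp z - (1 + z + z ^ 2 / 2)) := by
    rw [hz2]
    push_cast
    field_simp
    ring
  rw [e2, norm_mul, Complex.norm_real, Real.norm_eq_abs, abs_of_pos (by linarith)]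
  calc Lg N * ‖Complex.exp z - (1 + z + z ^ 2 / 2)‖ ≤ Lg N * ‖z‖ ^ 3 := by gcongr
    _ = |s| ^ 3 / T := by
        rw [hnz, ← hTT]
        field_simp

/-- the sum of the `ξ` -/
noncomputable def xi (s : ι → ℝ) (N : ℕ) (i : ι) : ℂ :=
  Complex.exp (Complex.I * ((s i / Real.sqrt (Lg N) : ℝ) : ℂ)) - 1

theorem xi_norm (s : ι → ℝ) (N : ℕ) (i : ι) : ‖xi s N i‖ ≤ |s i| / Real.sqrt (Lg N) := by
  unfold xi
  refine (Real.norm_exp_I_mul_ofReal_sub_one_le).trans (le_of_eq ?_)
  rw [Real.norm_eq_abs, abs_div, abs_of_nonneg (Real.sqrt_nonneg _)]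

theorem xsum_norm (s : ι → ℝ) (N : ℕ) : ‖∑ i, xi s N i‖ ≤ (∑ i, |s i|) / Real.sqrt (Lg N) := by
  rw [sum_div]
  exact (norm_sum_le _ _).trans (sum_le_sum fun i _ => xi_norm s N i)

/-- the main term -/
theorem main_term (s : ι → ℝ) (q : ℕ) (hq : 2 ≤ q) :
    Tendsto (fun N : ℕ => (∑ i, xi s N i) * ((Sn q N : ℝ) : ℂ) -
      Complex.I * (((∑ i, s i) * Real.sqrt (Lg N) : ℝ) : ℂ)) atTop (𝓝 (-((∑ i, s i ^ 2 / 2 : ℝ) : ℂ))) := by
  have h1 : Tendsto (fun N : ℕ => ∑ i, (Lg N : ℂ) *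
    (Complex.exp (Complex.I * ((s i / Real.sqrt (Lg N) : ℝ) : ℂ)) - 1 -
      Complex.I * ((s i / Real.sqrt (Lg N) : ℝ) : ℂ))) atTop (𝓝 (∑ i, -((s i ^ 2 / 2 : ℝ) : ℂ))) :=
    tendsto_finsetSum _ fun i _ => second (s i)
  have h2 : Tendsto (fun N : ℕ => (∑ i, xi s N i) * (((Sn q N - Lg N : ℝ)) : ℂ)) atTop (𝓝 0) := by
    rw [tendsto_zero_iff_norm_tendsto_zero]
    have h3 := (rn_lim q hq).norm.const_mul (∑ i, |s i|)
    rw [norm_zero, mul_zero] at h3
    apply squeeze_zero' (Eventually.of_forall fun _ => norm_nonneg _) _ h3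
    filter_upwards [Lg_top.eventually_ge_atTop 1] with N h4
    have hT0 : 0 < Real.sqrt (Lg N) := Real.sqrt_pos.2 (by linarith)
    rw [norm_mul, Complex.norm_real, Real.norm_eq_abs, norm_div, Real.norm_eq_abs, Real.norm_eq_abs,
      abs_of_pos hT0]
    calc ‖∑ i, xi s N i‖ * |Sn q N - Lg N| ≤ (∑ i, |s i|) / Real.sqrt (Lg N) * |Sn q N - Lg N| :=
          mul_le_mul_of_nonneg_right (xsum_norm s N) (abs_nonneg _)
      _ = _ := by ring
  have h3 := h2.add h1
  rw [zero_add, sum_neg_distrib, ← Complex.ofReal_sum] at h3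
  refine h3.congr' ?_
  filter_upwards [Lg_top.eventually_ge_atTop 1] with N h4
  have hT0 : 0 < Real.sqrt (Lg N) := Real.sqrt_pos.2 (by linarith)
  have hTT : Real.sqrt (Lg N) ^ 2 = Lg N := sq_T h4
  set T := Real.sqrt (Lg N) with hT
  have hTc : (T : ℂ) ≠ 0 := by exact_mod_cast hT0.ne'
  rw [← hTT]
  simp only [xi]
  rw [← hT]
  push_cast
  simp only [mul_sub, sub_mul, sum_sub_distrib, sum_mul, mul_sum]
  have e1 : ∀ i, (T : ℂ) ^ 2 * (Complex.I * ((s i : ℂ) / T)) = Complex.I * (s i * T) := by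
    intro i; field_simp
  simp only [e1]
  simp only [mul_comm ((T : ℂ) ^ 2)]
  ring

/-- the product over the primes -/
theorem prod_lim (s : ι → ℝ) (q : ℕ) (hq : 2 ≤ q) :
    Tendsto (fun N : ℕ => (∏ p ∈ Pn q N, (1 + (∑ i, xi s N i) / (p : ℂ))) *
      Complex.exp (-(Complex.I * (((∑ i, s i) * Real.sqrt (Lg N) : ℝ) : ℂ)))) atTop
      (𝓝 (Complex.exp (-((∑ i, s i ^ 2 / 2 : ℝ) : ℂ)))) := by
  set A : ℝ := ∑ i, |s i| with hA
  have hA0 : 0 ≤ A := by rw [hA]; positivity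
  have hx : ∀ᶠ N : ℕ in atTop, ‖∑ i, xi s N i‖ ≤ 1 / 2 := by
    filter_upwards [sqL_top.eventually_ge_atTop (2 * A + 1)] with N h1
    have hT0 : 0 < Real.sqrt (Lg N) := by linarith
    refine (xsum_norm s N).trans ?_
    rw [div_le_iff₀ hT0]
    linarith
  -- the logarithms
  have hlog : Tendsto (fun N : ℕ => ∑ p ∈ Pn q N, Complex.log (1 + (∑ i, xi s N i) / (p : ℂ)) -
      (∑ i, xi s N i) * ((Sn q N : ℝ) : ℂ)) atTop (𝓝 0) := by
    rw [tendsto_zero_iff_norm_tendsto_zero]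
    have hs2 : Summable fun n : ℕ => 1 / (n : ℝ) ^ 2 := Real.summable_one_div_nat_pow.2 (by norm_num)
    set B : ℝ := ∑' n : ℕ, 1 / (n : ℝ) ^ 2 with hB
    have h3 : Tendsto (fun N : ℕ => A ^ 2 * B / Real.sqrt (Lg N)) atTop (𝓝 0) :=
      tendsto_const_nhds.div_atTop sqL_top
    apply squeeze_zero' (Eventually.of_forall fun _ => norm_nonneg _) _ h3
    filter_upwards [hx, sqL_top.eventually_ge_atTop 1] with N h4 h5
    set x := ∑ i, xi s N i with hxd
    have hT0 : 0 < Real.sqrt (Lg N) := by linarith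
    have e1 : ∑ p ∈ Pn q N, Complex.log (1 + x / (p : ℂ)) - x * ((Sn q N : ℝ) : ℂ) =
        ∑ p ∈ Pn q N, (Complex.log (1 + x / (p : ℂ)) - x / (p : ℂ)) := by
      rw [sum_sub_distrib]
      congr 1
      unfold Sn
      push_cast
      rw [mul_sum]
      exact sum_congr rfl fun p _ => by ring
    rw [e1]
    have h6 : ∀ p ∈ Pn q N, ‖Complex.log (1 + x / (p : ℂ)) - x / (p : ℂ)‖ ≤ ‖x‖ ^ 2 * (1 / (p : ℝ) ^ 2) := by
      intro p hp
      have hp1 : (1 : ℝ) ≤ p := by exact_mod_cast (mem_filter.1 hp).2.one_lt.le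
      have hn : ‖x / (p : ℂ)‖ = ‖x‖ / p := by rw [norm_div, Complex.norm_natCast]
      have hn2 : ‖x / (p : ℂ)‖ ≤ 1 / 2 := by
        rw [hn]
        exact (div_le_self (norm_nonneg _) hp1).trans h4
      have h7 := Complex.norm_log_one_add_sub_self_le (z := x / (p : ℂ)) (by linarith)
      refine h7.trans ?_
      have h8 : (1 - ‖x / (p : ℂ)‖)⁻¹ ≤ 2 := by
        rw [inv_le_comm₀ (by linarith) (by norm_num)]
        linarith
      calc ‖x / (p : ℂ)‖ ^ 2 * (1 - ‖x / (p : ℂ)‖)⁻¹ / 2 ≤ ‖x / (p : ℂ)‖ ^ 2 * 2 / 2 := by gcongr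
        _ = ‖x‖ ^ 2 * (1 / (p : ℝ) ^ 2) := by rw [hn]; ring
    calc ‖∑ p ∈ Pn q N, (Complex.log (1 + x / (p : ℂ)) - x / (p : ℂ))‖ ≤
        ∑ p ∈ Pn q N, ‖x‖ ^ 2 * (1 / (p : ℝ) ^ 2) := (norm_sum_le _ _).trans (sum_le_sum h6)
      _ = ‖x‖ ^ 2 * ∑ p ∈ Pn q N, (1 / (p : ℝ) ^ 2) := by rw [mul_sum]
      _ ≤ (A / Real.sqrt (Lg N)) ^ 2 * B := by
          have h7 := xsum_norm s N
          have h8 : ∑ p ∈ Pn q N, (1 / (p : ℝ) ^ 2) ≤ B := hs2.sum_le_tsum _ fun _ _ => by positivity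
          gcongr
      _ ≤ A ^ 2 * B / Real.sqrt (Lg N) := by
          have hB0 : 0 ≤ B := tsum_nonneg fun _ => by positivity
          rw [div_pow, div_mul_eq_mul_div]
          apply div_le_div_of_nonneg_left (by positivity) hT0
          nlinarith
  have h1 := hlog.add (main_term s q hq)
  rw [zero_add] at h1
  have h2 := (Complex.continuous_exp.tendsto _).comp h1
  refine h2.congr' ?_
  filter_upwards [hx] with N h3
  simp only [Function.comp_apply]
  have e1 : ∏ p ∈ Pn q N, (1 + (∑ i, xi s N i) / (p : ℂ)) =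
      Complex.exp (∑ p ∈ Pn q N, Complex.log (1 + (∑ i, xi s N i) / (p : ℂ))) := by
    rw [Complex.exp_sum]
    refine prod_congr rfl fun p hp => ?_
    rw [Complex.exp_log]
    intro h4
    have hp1 : (1 : ℝ) ≤ p := by exact_mod_cast (mem_filter.1 hp).2.one_lt.le
    have h5 : (∑ i, xi s N i) / (p : ℂ) = -1 := by linear_combination h4
    have h6 : ‖(∑ i, xi s N i) / (p : ℂ)‖ = 1 := by rw [h5, norm_neg, norm_one]
    rw [norm_div, Complex.norm_natCast] at h6
    have h7 := div_le_self (norm_nonneg (∑ i, xi s N i)) hp1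
    linarith
  rw [e1, ← Complex.exp_add]
  congr 1
  ring

/-- the error terms -/
theorem err_lim (D A : ℝ) (hA : 0 ≤ A) (q : ℕ) (hq : 2 ≤ q) :
    Tendsto (fun N : ℕ => 2 * Real.exp 1 * (yn N : ℝ) ^ (2 * Kn N) / N +
      |D| * Real.exp (A * (Sn q N / Real.sqrt (Lg N))) / Real.exp 1 ^ Kn N) atTop (𝓝 0) := by
  have h1 : Tendsto (fun N : ℕ => 2 * Real.exp 1 * Real.exp (-(Real.log N / 2))) atTop (𝓝 0) := by
    have h2 : Tendsto (fun N : ℕ => Real.exp (-(Real.log (N : ℝ) / 2))) atTop (𝓝 0) :=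
      Real.tendsto_exp_neg_atTop_nhds_zero.comp (log_top.atTop_div_const (by norm_num))
    have := h2.const_mul (2 * Real.exp 1)
    rwa [mul_zero] at this
  have h2 : Tendsto (fun N : ℕ => |D| * Real.exp (A + A - Real.sqrt (Lg N))) atTop (𝓝 0) := by
    have h3 : Tendsto (fun N : ℕ => A + A - Real.sqrt (Lg N)) atTop atBot := by
      have := tendsto_atBot_add_const_left atTop (A + A) (tendsto_neg_atTop_atBot.comp sqL_top)
      exact this.congr fun N => by simp only [Function.comp_apply]; ring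
    have := (Real.tendsto_exp_atBot.comp h3).const_mul |D|
    rwa [mul_zero] at this
  have h3 := h1.add h2
  rw [add_zero] at h3
  apply squeeze_zero' _ _ h3
  · exact Eventually.of_forall fun N => by positivity
  · filter_upwards [yn_bd, (rn_lim q hq).eventually_le_const (show (0 : ℝ) < 1 from one_pos),
      sqL_top.eventually_ge_atTop (A + 1), eventually_ge_atTop 1] with N hN hr hT hN1
    obtain ⟨hL1, _, _, hy2, _⟩ := hN
    have hN0 : (0 : ℝ) < N := by exact_mod_cast hN1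
    apply add_le_add
    · rw [mul_div_assoc]
      apply mul_le_mul_of_nonneg_left _ (by positivity)
      rw [div_le_iff₀ hN0]
      refine hy2.trans (le_of_eq ?_)
      nth_rewrite 3 [← Real.exp_log hN0]
      rw [← Real.exp_add]
      congr 1; ring
    · rw [mul_div_assoc]
      apply mul_le_mul_of_nonneg_left _ (abs_nonneg D)
      rw [← Real.exp_nat_mul, mul_one, ← Real.exp_sub]
      apply Real.exp_le_exp.2
      obtain ⟨k1, _, _⟩ := Kn_bd hL1
      have hT0 : 0 < Real.sqrt (Lg N) := by linarith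
      have hTT := sq_T hL1
      set T := Real.sqrt (Lg N) with hTd
      have e1 : Sn q N / T = T + (Sn q N - Lg N) / T := by
        rw [← hTT]; field_simp; ring
      have h5 : Sn q N / T ≤ T + 1 := by rw [e1]; linarith
      have h6 : A * (Sn q N / T) ≤ A * (T + 1) := mul_le_mul_of_nonneg_left h5 hA
      nlinarith

/-- THE CHARACTERISTIC FUNCTIONS -/
theorem char_om {a b : ι → ℕ} (h : Fm a b) (s : ι → ℝ) :
    Tendsto (fun N : ℕ => (∑ n ∈ range N, ∏ i, (1 + xi s N i) ^ om (Pn (q0 a b) N) (a i * n + b i)) / (N : ℂ) *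
      Complex.exp (-(Complex.I * (((∑ i, s i) * Real.sqrt (Lg N) : ℝ) : ℂ)))) atTop
      (𝓝 (Complex.exp (-((∑ i, s i ^ 2 / 2 : ℝ) : ℂ)))) := by
  set q := q0 a b with hqd
  have hq : 2 ≤ q := by rw [hqd]; unfold q0; omega
  have h1 := prod_lim s q hq
  set A : ℝ := ∑ i, |s i| with hA
  have hA0 : 0 ≤ A := by rw [hA]; positivity
  set d : ℝ := (Fintype.card ι : ℝ) with hd
  have hd0 : 0 ≤ d := by rw [hd]; positivity
  set C : ℕ := ∑ i, (a i + b i) with hC
  have hCi : ∀ i, a i + b i ≤ C := fun i =>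
    single_le_sum (f := fun i => a i + b i) (fun _ _ => Nat.zero_le _) (mem_univ i)
  have h2 : Tendsto (fun N : ℕ => ((∑ n ∈ range N, ∏ i, (1 + xi s N i) ^ om (Pn q N) (a i * n + b i)) / (N : ℂ) -
      ∏ p ∈ Pn q N, (1 + (∑ i, xi s N i) / (p : ℂ))) *
      Complex.exp (-(Complex.I * (((∑ i, s i) * Real.sqrt (Lg N) : ℝ) : ℂ)))) atTop (𝓝 0) := by
    rw [tendsto_zero_iff_norm_tendsto_zero]
    have h3 := err_lim (2 + d * (1 + C)) (2 * (d + 1) * Real.exp 1 * A) (by positivity) q hq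
    apply squeeze_zero' (Eventually.of_forall fun _ => norm_nonneg _) _ h3
    filter_upwards [yn_bd, sqL_top.eventually_ge_atTop ((d + 1) * Real.exp 1 * A + 1), eventually_ge_atTop 1]
      with N hN hT hN1
    obtain ⟨hL1, _, hy1, _⟩ := hN
    set T := Real.sqrt (Lg N) with hTd
    have hT0 : 0 < T := lt_of_lt_of_le (by positivity) hT
    have hen : ‖Complex.exp (-(Complex.I * (((∑ i, s i) * T : ℝ) : ℂ)))‖ = 1 := by
      rw [← mul_neg, ← Complex.ofReal_neg, mul_comm, Complex.norm_exp_ofReal_mul_I]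
    rw [norm_mul, hen, mul_one]
    have h4 := forms_mean (good_of h N) h.b1 (xi s N) (η := A / T) (l := Real.exp 1)
      (fun i => (xi_norm s N i).trans (by
        rw [hA]
        apply div_le_div_of_nonneg_right _ hT0.le
        exact single_le_sum (f := fun i => |s i|) (fun _ _ => abs_nonneg _) (mem_univ i)))
      (by positivity) (Real.one_le_exp zero_le_one)
      (by
        rw [mul_div_assoc', div_le_one hT0]
        rw [← hd]
        linarith) (K := Kn N) hy1 (fun p hp => by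
          unfold Pn at hp
          rw [mem_filter, mem_Ioc] at hp
          exact hp.1.2) hN1 hCi
    refine h4.trans (le_of_eq ?_)
    rw [← hd, abs_of_nonneg (by positivity : 0 ≤ 2 + d * (1 + (C : ℝ)))]
    congr 3
    congr 1
    change 2 * (d + 1) * Real.exp 1 * (A / T) * Sn q N = _
    ring
  have h3 := h2.add h1
  rw [zero_add] at h3
  refine h3.congr fun N => ?_
  ring

end Pool.Agent.W5h45.EK
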