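import Pool.Agent.W5h45.EK.A4

set_option autoImplicit false
set_option linter.unusedSectionVars false

/-!
From the medium prime factors to all prime factors.
-/

namespace Pool.Agent.W5h45.EK

open Finset Filter Topology

/-- the normalised number of prime factors -/
noncomputable def Z (m : ℕ) : ℝ :=
  ((m.primeFactors.card : ℝ) - Real.log (Real.log m)) / Real.sqrt (Real.log (Real.log m))

/-- the large primes -/
noncomputable def P2 (N : ℕ) : Finset ℕ := (Finset.Ioc (yn N) N).filter Nat.Prime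

theorem om_le (q N m : ℕ) (hm : 1 ≤ m) : om (Pn q N) m ≤ m.primeFactors.card := by
  apply card_le_card
  intro p hp
  unfold Pn at hp
  rw [mem_filter, mem_filter] at hp
  rw [Nat.mem_primeFactors]
  exact ⟨hp.1.2, hp.2, by omega⟩

theorem om_split (q N m : ℕ) (hm : 1 ≤ m) (hmN : m < N * N) :
    m.primeFactors.card ≤ om (Pn q N) m + q + om (P2 N) m + 1 := by
  have h1 : m.primeFactors ⊆ (((Pn q N).filter (· ∣ m) ∪ Finset.Icc 1 q) ∪ (P2 N).filter (· ∣ m)) ∪
      m.primeFactors.filter (N < ·) := by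
    intro p hp
    have hp' := hp
    rw [Nat.mem_primeFactors] at hp
    obtain ⟨h1, h2, _⟩ := hp
    simp only [mem_union, mem_filter, mem_Icc, Pn, P2, mem_Ioc]
    rcases Nat.lt_or_ge q p with g1 | g1
    · rcases Nat.lt_or_ge (yn N) p with g2 | g2
      · rcases Nat.lt_or_ge N p with g3 | g3
        · exact Or.inr ⟨hp', g3⟩
        · exact Or.inl (Or.inr ⟨⟨⟨g2, g3⟩, h1⟩, h2⟩)
      · exact Or.inl (Or.inl (Or.inl ⟨⟨⟨g1, g2⟩, h1⟩, h2⟩))
    · exact Or.inl (Or.inl (Or.inr ⟨h1.one_lt.le, g1⟩))
  have h2 : (m.primeFactors.filter (N < ·)).card ≤ 1 := by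
    rw [card_le_one]
    intro p hp r hr
    rw [mem_filter, Nat.mem_primeFactors] at hp hr
    by_contra hne
    have h3 : p * r ∣ m := Nat.Coprime.mul_dvd_of_dvd_of_dvd
      ((Nat.coprime_primes hp.1.1 hr.1.1).2 hne) hp.1.2.1 hr.1.2.1
    have h4 := Nat.le_of_dvd (by omega) h3
    have h5 : N * N ≤ p * r := Nat.mul_le_mul hp.2.le hr.2.le
    omega
  refine (card_le_card h1).trans ?_
  refine (card_union_le _ _).trans ?_
  refine (Nat.add_le_add (card_union_le _ _) h2).trans ?_
  have h3 := card_union_le ((Pn q N).filter (· ∣ m)) (Finset.Icc 1 q)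
  rw [Nat.card_Icc, Nat.add_sub_cancel] at h3
  unfold om
  omega

/-- comparison of the normalisations -/
theorem norm_close {L l o w : ℝ} (hL : 2 ≤ L) (hl : |l - L| ≤ 1) (ho : 0 ≤ o) (how : o ≤ w) :
    |(w - l) / Real.sqrt l - (o - L) / Real.sqrt L| ≤
      2 / Real.sqrt L * (w - o) + 2 / Real.sqrt L ^ 3 * o + 1 / Real.sqrt L := by
  obtain ⟨h1, h2⟩ := abs_le.1 hl
  have hl0 : 0 < l := by linarith
  have hL0 : 0 < L := by linarith
  set T := Real.sqrt L with hT
  set t := Real.sqrt l with ht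
  have hT0 : 0 < T := Real.sqrt_pos.2 hL0
  have ht0 : 0 < t := Real.sqrt_pos.2 hl0
  have hTT : T * T = L := Real.mul_self_sqrt hL0.le
  have htt : t * t = l := Real.mul_self_sqrt hl0.le
  have htT : T / 2 ≤ t := by
    rw [ht]
    apply Real.le_sqrt_of_sq_le
    nlinarith
  have h3 : |t - T| ≤ 1 / T := by
    rw [le_div_iff₀ hT0]
    have h4 : |t - T| * (t + T) ≤ 1 := by
      rw [← abs_of_pos (by linarith : 0 < t + T), ← abs_mul]
      have : (t - T) * (t + T) = l - L := by rw [← hTT, ← htt]; ring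
      rw [this]; exact hl
    have h5 : 0 ≤ |t - T| := abs_nonneg _
    nlinarith
  have e1 : (w - l) / t - (o - L) / T = (w - o) / t + o * ((T - t) / (t * T)) - (t - T) := by
    rw [← hTT, ← htt]
    field_simp
    ring
  rw [e1]
  have h5 : (w - o) / t ≤ 2 / T * (w - o) := by
    rw [div_eq_mul_one_div, mul_comm]
    apply mul_le_mul_of_nonneg_right _ (by linarith)
    rw [div_le_div_iff₀ ht0 hT0]
    linarith
  have h6 : |(T - t) / (t * T)| ≤ 2 / T ^ 3 := by
    rw [abs_div, abs_sub_comm, abs_of_pos (by positivity : 0 < t * T), div_le_div_iff₀ (by positivity) (by positivity)]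
    have h7 : |t - T| * T ≤ 1 := by rwa [le_div_iff₀ hT0] at h3
    calc |t - T| * T ^ 3 = (|t - T| * T) * T ^ 2 := by ring
      _ ≤ 1 * T ^ 2 := by gcongr
      _ ≤ 2 * (t * T) := by nlinarith
  have h7 : |o * ((T - t) / (t * T))| ≤ 2 / T ^ 3 * o := by
    rw [abs_mul, abs_of_nonneg ho, mul_comm]
    exact mul_le_mul_of_nonneg_right h6 ho
  have h8 : 0 ≤ (w - o) / t := div_nonneg (by linarith) ht0.le
  calc |(w - o) / t + o * ((T - t) / (t * T)) - (t - T)| ≤
      |(w - o) / t + o * ((T - t) / (t * T))| + |t - T| := abs_sub _ _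
    _ ≤ (|(w - o) / t| + |o * ((T - t) / (t * T))|) + |t - T| := by
        gcongr
        exact abs_add_le _ _
    _ ≤ _ := by
        rw [abs_of_nonneg h8]
        linarith

variable {ι : Type} [Fintype ι] [DecidableEq ι]

/-- mean values of `om` -/
theorem om_mean {a b : ι → ℕ} (h : Fm a b) (i : ι) {C N : ℕ} (hC : a i + b i ≤ C) (hN : 1 ≤ N)
    (P : Finset ℕ) (hP : ∀ p ∈ P, p.Prime ∧ a i < p) :
    ∑ n ∈ range N, (om P (a i * n + b i) : ℝ) ≤ (1 + C) * N * ∑ p ∈ P, 1 / (p : ℝ) := by
  have h1 : ∀ n, (om P (a i * n + b i) : ℝ) = ∑ p ∈ P, if p ∣ a i * n + b i then 1 else 0 := by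
    intro n
    unfold om
    rw [card_filter]
    push_cast
    rfl
  simp only [h1]
  rw [sum_comm, mul_sum]
  apply sum_le_sum
  intro p hp
  rw [sum_boole]
  obtain ⟨h2, h3⟩ := hP p hp
  have h4 : Nat.Coprime (a i) p := by
    rw [Nat.coprime_comm, h2.coprime_iff_not_dvd]
    intro hd
    have := Nat.le_of_dvd (h.a1 i) hd
    omega
  have h5 := class_card' h2.pos h4 (h.b1 i) hN hC
  rw [mul_one_div]
  exact h5

theorem P2_sum : ∃ C : ℝ, 0 ≤ C ∧ ∀ᶠ N : ℕ in atTop, ∑ p ∈ P2 N, 1 / (p : ℝ) ≤ C + Real.log (16 * Lg N) := by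
  obtain ⟨C, hC0, hC⟩ := Pool.Agent.Helper923.HMertens.mertens_ratio
  refine ⟨C, hC0, ?_⟩
  filter_upwards [yn_bd, log_top.eventually_ge_atTop 1, eventually_ge_atTop 1] with N hN hl1 hN1
  obtain ⟨h1, h2, hy1, _, hylo, hyhi, h4⟩ := hN
  obtain ⟨k1, k2, k3⟩ := Kn_bd h1
  have hK0 : (0 : ℝ) < Kn N := by exact_mod_cast k3
  have hy0 : (0 : ℝ) < yn N := by exact_mod_cast hy1
  have hN0 : (0 : ℝ) < N := by exact_mod_cast hN1
  have hly : 1 ≤ Real.log (yn N) := h4.trans hylo
  have hy2 : 2 ≤ yn N := by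
    by_contra hcon
    have : yn N = 1 := by omega
    rw [this, Nat.cast_one, Real.log_one] at hly
    linarith
  have hyN : yn N ≤ N := by
    have h6 := (Real.log_le_log_iff hy0 hN0).1 hyhi
    exact_mod_cast h6
  have h5 := (abs_le.1 (hC (yn N) N hy2 hyN)).2
  have h6 : Real.log (Real.log N / Real.log (yn N)) ≤ Real.log (16 * Lg N) := by
    apply Real.log_le_log (by positivity)
    rw [div_le_iff₀ (by linarith)]
    rw [div_le_iff₀ (by positivity)] at hylo
    have : Real.log (yn N) * (8 * Kn N) ≤ Real.log (yn N) * (16 * Lg N) := by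
      apply mul_le_mul_of_nonneg_left _ (by linarith)
      linarith
    linarith
  have h7 : C / Real.log (yn N) ≤ C := div_le_self hC0 hly
  change ∑ p ∈ (Finset.Ioc (yn N) N).filter Nat.Prime, 1 / (p : ℝ) ≤ _
  linarith

/-- the size of the values -/
theorem size_close {a b : ι → ℕ} (h : Fm a b) (C : ℕ) (hC : ∀ i, a i + b i ≤ C) :
    ∀ᶠ N : ℕ in atTop, ∀ n, Nat.sqrt N < n → n < N → ∀ i,
      1 ≤ a i * n + b i ∧ a i * n + b i < N * N ∧
        |Real.log (Real.log ((a i * n + b i : ℕ) : ℝ)) - Lg N| ≤ 1 := by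
  filter_upwards [Lg_top.eventually_ge_atTop 2, log_top.eventually_ge_atTop 2, eventually_ge_atTop (C + 2)]
    with N h1 h2 h3 n hn1 hn2 i
  have hb := h.b1 i
  have ha := h.a1 i
  have hN0 : (0 : ℝ) < N := by exact_mod_cast (by omega : 0 < N)
  have hup : a i * n + b i ≤ C * N := by
    calc a i * n + b i ≤ a i * N + b i * N := by
          apply Nat.add_le_add (Nat.mul_le_mul_left _ hn2.le)
          exact Nat.le_mul_of_pos_right _ (by omega)
      _ = (a i + b i) * N := by ring
      _ ≤ C * N := Nat.mul_le_mul_right _ (hC i)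
  have hNN : a i * n + b i < N * N := by
    calc a i * n + b i ≤ C * N := hup
      _ < N * N := Nat.mul_lt_mul_of_pos_right (by omega) (by omega)
  have hlo : n ≤ a i * n + b i := by nlinarith
  refine ⟨by omega, hNN, ?_⟩
  set m : ℕ := a i * n + b i with hm
  have hm0 : (0 : ℝ) < m := by exact_mod_cast (by omega : 0 < m)
  have hsq : N < m * m := by
    have := Nat.sqrt_lt.1 hn1
    calc N < n * n := this
      _ ≤ m * m := Nat.mul_le_mul hlo hlo
  have g1 : Real.log N ≤ 2 * Real.log m := by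
    have : Real.log N ≤ Real.log ((m : ℝ) * m) := by
      apply Real.log_le_log hN0
      exact_mod_cast hsq.le
    rw [Real.log_mul hm0.ne' hm0.ne'] at this
    linarith
  have g2 : Real.log m ≤ 2 * Real.log N := by
    have : Real.log m ≤ Real.log ((N : ℝ) * N) := by
      apply Real.log_le_log hm0
      exact_mod_cast hNN.le
    rw [Real.log_mul hN0.ne' hN0.ne'] at this
    linarith
  have hlm : 0 < Real.log m := by linarith
  have g3 : Lg N ≤ Real.log 2 + Real.log (Real.log m) := by
    rw [← Real.log_mul (by norm_num) hlm.ne']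
    exact Real.log_le_log (by linarith) g1
  have g4 : Real.log (Real.log m) ≤ Real.log 2 + Lg N := by
    unfold Lg
    rw [← Real.log_mul (by norm_num) (by linarith)]
    exact Real.log_le_log hlm g2
  have g5 := Real.log_two_lt_d9
  rw [abs_le]
  constructor <;> linarith

/-- the two exponentials -/
noncomputable def E1 (a b : ι → ℕ) (s : ι → ℝ) (n : ℕ) : ℂ :=
  Complex.exp (Complex.I * ((∑ i, s i * Z (a i * n + b i) : ℝ) : ℂ))

noncomputable def Zn (q N m : ℕ) : ℝ := ((om (Pn q N) m : ℝ) - Lg N) / Real.sqrt (Lg N)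

theorem exp_close (x y : ℝ) : ‖Complex.exp (Complex.I * x) - Complex.exp (Complex.I * y)‖ ≤ |x - y| := by
  have e1 : Complex.exp (Complex.I * x) - Complex.exp (Complex.I * y) =
      Complex.exp (Complex.I * y) * (Complex.exp (Complex.I * ((x - y : ℝ) : ℂ)) - 1) := by
    rw [mul_sub, mul_one, ← Complex.exp_add]
    congr 2
    push_cast
    ring
  rw [e1, norm_mul, mul_comm Complex.I (y : ℂ), Complex.norm_exp_ofReal_mul_I, one_mul]
  exact Real.norm_exp_I_mul_ofReal_sub_one_le

theorem char_Z {a b : ι → ℕ} (h : Fm a b) (s : ι → ℝ) :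
    Tendsto (fun N : ℕ => (∑ n ∈ range N, E1 a b s n) / (N : ℂ)) atTop
      (𝓝 (Complex.exp (-((∑ i, s i ^ 2 / 2 : ℝ) : ℂ)))) := by
  set q := q0 a b with hqd
  have hq : 2 ≤ q := by rw [hqd]; unfold q0; omega
  set C : ℕ := ∑ i, (a i + b i) with hC
  have hCi : ∀ i, a i + b i ≤ C := fun i =>
    single_le_sum (f := fun i => a i + b i) (fun _ _ => Nat.zero_le _) (mem_univ i)
  set A : ℝ := ∑ i, |s i| with hA
  have hA0 : 0 ≤ A := by rw [hA]; positivity
  obtain ⟨C1, hC10, hC1⟩ := Sn_bd q hq
  obtain ⟨C2, hC20, hC2⟩ := P2_sum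
  -- the first limit
  have h1 := char_om h s
  have h1' : Tendsto (fun N : ℕ => (∑ n ∈ range N,
      Complex.exp (Complex.I * ((∑ i, s i * Zn q N (a i * n + b i) : ℝ) : ℂ))) / (N : ℂ)) atTop
      (𝓝 (Complex.exp (-((∑ i, s i ^ 2 / 2 : ℝ) : ℂ)))) := by
    refine h1.congr' ?_
    filter_upwards [Lg_top.eventually_ge_atTop 1] with N hL1
    rw [div_mul_eq_mul_div, sum_mul]
    congr 1
    refine sum_congr rfl fun n _ => ?_
    have hT0 : 0 < Real.sqrt (Lg N) := Real.sqrt_pos.2 (by linarith)
    have hTT := sq_T hL1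
    set T := Real.sqrt (Lg N) with hT
    have e1 : ∏ i, (1 + xi s N i) ^ om (Pn q N) (a i * n + b i) =
        Complex.exp (∑ i, (om (Pn q N) (a i * n + b i) : ℂ) * (Complex.I * ((s i / T : ℝ) : ℂ))) := by
      rw [Complex.exp_sum]
      refine prod_congr rfl fun i _ => ?_
      rw [Complex.exp_nat_mul]
      congr 1
      unfold xi
      rw [add_sub_cancel]
    rw [e1, ← Complex.exp_add]
    congr 1
    have hTc : (T : ℂ) ≠ 0 := by exact_mod_cast hT0.ne'
    have e2 : ∀ i, s i * Zn q N (a i * n + b i) =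
        (om (Pn q N) (a i * n + b i) : ℝ) * (s i / T) - s i * T := by
      intro i
      unfold Zn
      rw [← hT, ← hTT]
      field_simp
    simp only [e2]
    push_cast
    rw [sum_sub_distrib, mul_sub, mul_sum, sum_mul]
    rw [← sub_eq_add_neg]
    congr 1
    refine sum_congr rfl fun i _ => ?_
    ring
  -- the difference
  have h2 : Tendsto (fun N : ℕ => (∑ n ∈ range N, E1 a b s n) / (N : ℂ) - (∑ n ∈ range N,
      Complex.exp (Complex.I * ((∑ i, s i * Zn q N (a i * n + b i) : ℝ) : ℂ))) / (N : ℂ)) atTop (𝓝 0) := by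
    rw [tendsto_zero_iff_norm_tendsto_zero]
    -- the bound
    have hb1 : Tendsto (fun N : ℕ => 2 * ((Nat.sqrt N + 1 : ℕ) : ℝ) / N) atTop (𝓝 0) := by
      have h3 : Tendsto (fun N : ℕ => 4 / Real.sqrt (N : ℝ)) atTop (𝓝 0) :=
        tendsto_const_nhds.div_atTop (Real.tendsto_sqrt_atTop.comp tendsto_natCast_atTop_atTop)
      apply squeeze_zero' _ _ h3
      · exact Eventually.of_forall fun N => by positivity
      · filter_upwards [eventually_ge_atTop 1] with N hN
        have hN0 : (0 : ℝ) < N := by exact_mod_cast hN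
        have hs0 : 0 < Real.sqrt (N : ℝ) := Real.sqrt_pos.2 hN0
        have hs1 : 1 ≤ Real.sqrt (N : ℝ) := by
          rw [Real.one_le_sqrt]; exact_mod_cast hN
        rw [div_le_div_iff₀ hN0 hs0]
        have h4 : ((Nat.sqrt N : ℕ) : ℝ) ≤ Real.sqrt N := Real.nat_sqrt_le_real_sqrt
        have h5 := Real.mul_self_sqrt hN0.le
        push_cast
        nlinarith
    have hb2 : Tendsto (fun N : ℕ => (2 * (q + 1) * A + 2 * (1 + C) * A * (C2 + Real.log (16 * Lg N))) /
        Real.sqrt (Lg N)) atTop (𝓝 0) := by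
      have h3 := ((small_log C2).comp Lg_top).const_mul (2 * (1 + (C : ℝ)) * A)
      have h4 : Tendsto (fun N : ℕ => (2 * ((q : ℝ) + 1) * A) / Real.sqrt (Lg N)) atTop (𝓝 0) :=
        tendsto_const_nhds.div_atTop sqL_top
      have h5 := h4.add h3
      rw [mul_zero, add_zero] at h5
      refine h5.congr fun N => ?_
      simp only [Function.comp_apply]
      ring
    have hb3 : Tendsto (fun N : ℕ => 2 * (1 + C) * A * ((1 + (C1 + Real.log (16 * Lg N)) / Real.sqrt (Lg N)) /
        Real.sqrt (Lg N))) atTop (𝓝 0) := by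
      have h3 := ((small_log C1).comp Lg_top).const_add 1
      have h4 := (h3.div_atTop sqL_top).const_mul (2 * (1 + (C : ℝ)) * A)
      rw [mul_zero] at h4
      exact h4
    have hb4 : Tendsto (fun N : ℕ => A / Real.sqrt (Lg N)) atTop (𝓝 0) :=
      tendsto_const_nhds.div_atTop sqL_top
    have hb := ((hb1.add hb2).add hb3).add hb4
    rw [add_zero, add_zero, add_zero] at hb
    apply squeeze_zero' (Eventually.of_forall fun _ => norm_nonneg _) _ hb
    have hyq : ∀ᶠ N : ℕ in atTop, q ≤ yn N := by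
      have htop : Tendsto (fun N : ℕ => Real.log (N : ℝ) / (8 * Kn N)) atTop atTop := by
        refine tendsto_atTop_mono' _ ?_ ratio_top
        filter_upwards [Lg_top.eventually_ge_atTop 1, log_top.eventually_ge_atTop 1] with N h1 h2
        obtain ⟨_, k2, k3⟩ := Kn_bd h1
        have hK0 : (0 : ℝ) < Kn N := by exact_mod_cast k3
        apply div_le_div_of_nonneg_left (by linarith) (by positivity)
        linarith
      filter_upwards [yn_bd, htop.eventually_ge_atTop (Real.log q)] with N hN hqy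
      obtain ⟨_, _, hy1, _, hylo, _, _⟩ := hN
      have hy0 : (0 : ℝ) < yn N := by exact_mod_cast hy1
      have hq0 : (0 : ℝ) < q := by exact_mod_cast (by omega : 0 < q)
      have h6 := (Real.log_le_log_iff hq0 hy0).1 (hqy.trans hylo)
      exact_mod_cast h6
    filter_upwards [size_close h C hCi, Lg_top.eventually_ge_atTop 2, eventually_ge_atTop 1, hC1, hC2, hyq]
      with N hsz hL2 hN1 hS hP2 hyqN
    have hN0 : (0 : ℝ) < N := by exact_mod_cast hN1
    have hT0 : 0 < Real.sqrt (Lg N) := Real.sqrt_pos.2 (by linarith)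
    have hTT := sq_T (by linarith : 1 ≤ Lg N)
    set T := Real.sqrt (Lg N) with hT
    rw [← sub_div, ← sum_sub_distrib, norm_div, Complex.norm_natCast, div_le_iff₀ hN0]
    -- pointwise
    set G : ℕ → ℝ := fun n => ∑ i, |s i| * (2 / T * ((q : ℝ) + 1 + om (P2 N) (a i * n + b i)) +
      2 / T ^ 3 * om (Pn q N) (a i * n + b i) + 1 / T) with hG
    have hG0 : ∀ n, 0 ≤ G n := fun n => by rw [hG]; dsimp only; positivity
    have hpt : ∀ n ∈ range N, ‖E1 a b s n - Complex.exp (Complex.I * ((∑ i, s i * Zn q N (a i * n + b i) : ℝ) : ℂ))‖ ≤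
        (if n ≤ Nat.sqrt N then 2 else 0) + G n := by
      intro n hn
      rw [mem_range] at hn
      split_ifs with hns
      · have h3 : ‖E1 a b s n - Complex.exp (Complex.I * ((∑ i, s i * Zn q N (a i * n + b i) : ℝ) : ℂ))‖ ≤ 1 + 1 := by
          refine (norm_sub_le _ _).trans ?_
          unfold E1
          rw [mul_comm Complex.I, mul_comm Complex.I, Complex.norm_exp_ofReal_mul_I,
            Complex.norm_exp_ofReal_mul_I]
        have := hG0 n
        linarith
      · push Not at hns
        rw [zero_add]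
        unfold E1
        refine (exp_close _ _).trans ?_
        rw [← sum_sub_distrib]
        refine (abs_sum_le_sum_abs _ _).trans ?_
        rw [hG]; dsimp only
        apply sum_le_sum
        intro i _
        rw [← mul_sub, abs_mul]
        apply mul_le_mul_of_nonneg_left _ (abs_nonneg _)
        obtain ⟨g1, g2, g3⟩ := hsz n hns hn i
        have h3 := om_le q N (a i * n + b i) g1
        have h4 := om_split q N (a i * n + b i) g1 g2
        have h3r : (om (Pn q N) (a i * n + b i) : ℝ) ≤ ((a i * n + b i).primeFactors.card : ℝ) := by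
          exact_mod_cast h3
        have h4r : (((a i * n + b i).primeFactors.card : ℕ) : ℝ) ≤
            (om (Pn q N) (a i * n + b i) : ℝ) + q + om (P2 N) (a i * n + b i) + 1 := by exact_mod_cast h4
        have h5 := norm_close hL2 g3 (Nat.cast_nonneg (om (Pn q N) (a i * n + b i))) h3r
        rw [← hT] at h5
        unfold Z Zn
        rw [← hT]
        refine h5.trans ?_
        gcongr
        linarith
    refine (norm_sum_le _ _).trans ((sum_le_sum hpt).trans ?_)
    rw [sum_add_distrib]
    have h3 : ∑ n ∈ range N, (if n ≤ Nat.sqrt N then (2 : ℝ) else 0) ≤ 2 * ((Nat.sqrt N + 1 : ℕ) : ℝ) := by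
      rw [← sum_filter, sum_const, nsmul_eq_mul, mul_comm]
      apply mul_le_mul_of_nonneg_left _ (by norm_num)
      have : ((range N).filter fun n => n ≤ Nat.sqrt N) ⊆ range (Nat.sqrt N + 1) := by
        intro n hn
        rw [mem_filter] at hn
        rw [mem_range]
        omega
      have h4 := card_le_card this
      rw [card_range] at h4
      exact_mod_cast h4
    have h4 : ∑ n ∈ range N, G n ≤ ((2 * (q + 1) * A + 2 * (1 + C) * A * (C2 + Real.log (16 * Lg N))) / T +
        2 * (1 + C) * A * ((1 + (C1 + Real.log (16 * Lg N)) / T) / T) + A / T) * N := by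
      rw [hG]; dsimp only
      rw [sum_comm]
      have h5 : ∀ i ∈ (univ : Finset ι), ∑ n ∈ range N, |s i| * (2 / T * ((q : ℝ) + 1 + om (P2 N) (a i * n + b i)) +
          2 / T ^ 3 * om (Pn q N) (a i * n + b i) + 1 / T) ≤
          |s i| * (((2 * (q + 1) + 2 * (1 + C) * (C2 + Real.log (16 * Lg N))) / T +
            2 * (1 + C) * ((1 + (C1 + Real.log (16 * Lg N)) / T) / T) + 1 / T) * N) := by
        intro i _
        rw [← mul_sum]
        apply mul_le_mul_of_nonneg_left _ (abs_nonneg _)
        rw [sum_add_distrib, sum_add_distrib, ← mul_sum, ← mul_sum, sum_add_distrib, sum_const, sum_const,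
          card_range, nsmul_eq_mul, nsmul_eq_mul]
        have h6 := om_mean h i (hCi i) hN1 (P2 N) (fun p hp => by
          unfold P2 at hp
          rw [mem_filter, mem_Ioc] at hp
          have := q0_a a b i
          exact ⟨hp.2, by omega⟩)
        have h7 := om_mean h i (hCi i) hN1 (Pn q N) (fun p hp => by
          unfold Pn at hp
          rw [mem_filter, mem_Ioc] at hp
          have := q0_a a b i
          exact ⟨hp.2, by omega⟩)
        have h8 : ∑ n ∈ range N, (om (P2 N) (a i * n + b i) : ℝ) ≤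
            (1 + C) * N * (C2 + Real.log (16 * Lg N)) :=
          h6.trans (mul_le_mul_of_nonneg_left hP2 (by positivity))
        have h9 : ∑ n ∈ range N, (om (Pn q N) (a i * n + b i) : ℝ) ≤
            (1 + C) * N * (Lg N + (C1 + Real.log (16 * Lg N))) := by
          refine h7.trans (mul_le_mul_of_nonneg_left ?_ (by positivity))
          have := (abs_le.1 hS).2
          change Sn q N ≤ _
          linarith
        have h10 : 2 / T ^ 3 * ∑ n ∈ range N, (om (Pn q N) (a i * n + b i) : ℝ) ≤
            2 * (1 + C) * ((1 + (C1 + Real.log (16 * Lg N)) / T) / T) * N := by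
          have hL : 0 ≤ Real.log (16 * Lg N) := Real.log_nonneg (by linarith)
          have hT1 : 1 ≤ T := by
            have : (1 : ℝ) ≤ Real.sqrt (Lg N) := by rw [Real.one_le_sqrt]; linarith
            exact this
          calc 2 / T ^ 3 * ∑ n ∈ range N, (om (Pn q N) (a i * n + b i) : ℝ) ≤
              2 / T ^ 3 * ((1 + C) * N * (Lg N + (C1 + Real.log (16 * Lg N)))) := by gcongr
            _ = 2 * (1 + C) * ((1 + (C1 + Real.log (16 * Lg N)) / T ^ 2) / T) * N := by
                rw [← hTT]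
                field_simp
            _ ≤ 2 * (1 + C) * ((1 + (C1 + Real.log (16 * Lg N)) / T) / T) * N := by
                have : T ≤ T ^ 2 := by nlinarith
                gcongr
        have h11 : 2 / T * ((N : ℝ) * ((q : ℝ) + 1) + ∑ n ∈ range N, (om (P2 N) (a i * n + b i) : ℝ)) ≤
            (2 * (q + 1) + 2 * (1 + C) * (C2 + Real.log (16 * Lg N))) / T * N := by
          calc 2 / T * ((N : ℝ) * ((q : ℝ) + 1) + ∑ n ∈ range N, (om (P2 N) (a i * n + b i) : ℝ)) ≤
              2 / T * ((N : ℝ) * ((q : ℝ) + 1) + (1 + C) * N * (C2 + Real.log (16 * Lg N))) := by gcongr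
            _ = _ := by ring
        have h12 := add_le_add h11 h10
        have h13 : ((2 * (q + 1) + 2 * (1 + C) * (C2 + Real.log (16 * Lg N))) / T +
            2 * (1 + C) * ((1 + (C1 + Real.log (16 * Lg N)) / T) / T) + 1 / T) * (N : ℝ) =
            ((2 * (q + 1) + 2 * (1 + C) * (C2 + Real.log (16 * Lg N))) / T * N +
            2 * (1 + C) * ((1 + (C1 + Real.log (16 * Lg N)) / T) / T) * N) + (N : ℝ) * (1 / T) := by ring
        rw [h13]
        exact add_le_add h12 le_rfl
      refine (sum_le_sum h5).trans (le_of_eq ?_)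
      rw [← sum_mul, ← hA]
      ring
    have h5 : 2 * ((Nat.sqrt N + 1 : ℕ) : ℝ) / N * N = 2 * ((Nat.sqrt N + 1 : ℕ) : ℝ) := by
      field_simp
    rw [add_mul, add_mul, add_mul, h5]
    rw [add_mul, add_mul] at h4
    linarith
  have h3 := h2.add h1'
  rw [zero_add] at h3
  refine h3.congr fun N => ?_
  ring

end Pool.Agent.W5h45.EK
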