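import Pool.Agent.W5h45.EK.A5

set_option autoImplicit false
set_option linter.unusedSectionVars false

/-!
From characteristic functions to distribution functions: the joint Erdős–Kac theorem for linear forms.
-/

namespace Pool.Agent.W5h45.EK

open Finset Filter Topology MeasureTheory ProbabilityTheory

/-- the distribution function of the standard normal law -/
noncomputable def Phi (y : ℝ) : ℝ := (gaussianReal 0 1).real (Set.Iic y)

variable {ι : Type} [Fintype ι] [DecidableEq ι]

/-- the empirical measure -/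
noncomputable def emp (v : ℕ → EuclideanSpace ℝ ι) (N : ℕ) : Measure (EuclideanSpace ℝ ι) :=
  ((N + 1 : ℕ) : ENNReal)⁻¹ • ∑ n ∈ range (N + 1), Measure.dirac (v n)

instance emp_prob (v : ℕ → EuclideanSpace ℝ ι) (N : ℕ) : IsProbabilityMeasure (emp v N) := by
  constructor
  unfold emp
  rw [Measure.smul_apply, Measure.finsetSum_apply]
  simp only [measure_univ, sum_const, card_range, smul_eq_mul, nsmul_eq_mul, mul_one]
  exact ENNReal.inv_mul_cancel (by exact_mod_cast (Nat.succ_ne_zero N)) (ENNReal.natCast_ne_top _)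

theorem emp_charFun (v : ℕ → EuclideanSpace ℝ ι) (N : ℕ) (t : EuclideanSpace ℝ ι) :
    charFun (emp v N) t = (∑ n ∈ range (N + 1),
      Complex.exp (Complex.I * ((∑ i, t i * v n i : ℝ) : ℂ))) / ((N + 1 : ℕ) : ℂ) := by
  rw [charFun_apply, emp, integral_smul_measure, integral_finsetSum_measure]
  · have e0 : ∀ z : ℂ, (((N + 1 : ℕ) : ENNReal)⁻¹).toReal • z = z / ((N + 1 : ℕ) : ℂ) := by
      intro z
      rw [ENNReal.toReal_inv, ENNReal.toReal_natCast, Complex.real_smul, div_eq_inv_mul]
      push_cast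
      rfl
    rw [e0]
    congr 1
    refine sum_congr rfl fun n _ => ?_
    rw [integral_dirac, mul_comm]
    congr 3
  · intro n _
    apply integrable_dirac
    simp

theorem emp_real (v : ℕ → EuclideanSpace ℝ ι) (N : ℕ) (E : Set (EuclideanSpace ℝ ι)) (hE : MeasurableSet E)
    [DecidablePred (· ∈ E)] :
    (emp v N).real E = (((range (N + 1)).filter fun n => v n ∈ E).card : ℝ) / ((N + 1 : ℕ) : ℝ) := by
  unfold emp Measure.real
  rw [Measure.smul_apply, Measure.finsetSum_apply, smul_eq_mul, ENNReal.toReal_mul, ENNReal.toReal_inv,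
    ENNReal.toReal_natCast, div_eq_inv_mul]
  congr 1
  have h1 : ∀ n, Measure.dirac (v n) E = if v n ∈ E then 1 else 0 := by
    intro n
    rw [Measure.dirac_apply' _ hE]
    simp [Set.indicator]
  simp only [h1]
  rw [sum_boole, ENNReal.toReal_natCast]

theorem box_of_char (v : ℕ → ι → ℝ)
    (h : ∀ s : ι → ℝ, Tendsto (fun N : ℕ => (∑ n ∈ range N, Complex.exp (Complex.I * ((∑ i, s i * v n i : ℝ) : ℂ)))
      / (N : ℂ)) atTop (𝓝 (Complex.exp (-((∑ i, s i ^ 2 / 2 : ℝ) : ℂ))))) (y : ι → ℝ) :
    Tendsto (fun N : ℕ => (((range N).filter fun n => ∀ i, v n i ≤ y i).card : ℝ) / N) atTop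
      (𝓝 (∏ i, Phi (y i))) := by
  classical
  set w : ℕ → EuclideanSpace ℝ ι := fun n => WithLp.toLp 2 (v n) with hw
  set μ0 : Measure (EuclideanSpace ℝ ι) := (Measure.pi (fun _ : ι => gaussianReal 0 1)).map (WithLp.toLp 2)
    with hμ0
  have hmeas : Measurable (WithLp.toLp 2 : (ι → ℝ) → EuclideanSpace ℝ ι) := by fun_prop
  have hp0 : IsProbabilityMeasure μ0 := Measure.isProbabilityMeasure_map hmeas.aemeasurable
  set P0 : ProbabilityMeasure (EuclideanSpace ℝ ι) := ⟨μ0, hp0⟩ with hP0
  set PN : ℕ → ProbabilityMeasure (EuclideanSpace ℝ ι) := fun N => ⟨emp w N, emp_prob w N⟩ with hPN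
  have hlim : Tendsto PN atTop (𝓝 P0) := by
    rw [ProbabilityMeasure.tendsto_iff_tendsto_charFun]
    intro t
    have h1 := (h (fun i => t i)).comp (tendsto_add_atTop_nat 1)
    have h2 : charFun μ0 t = Complex.exp (-((∑ i, t i ^ 2 / 2 : ℝ) : ℂ)) := by
      rw [hμ0, charFun_pi, ]
      simp_rw [charFun_gaussianReal, ← Complex.exp_sum]
      congr 1
      push_cast
      rw [← sum_neg_distrib]
      refine sum_congr rfl fun i _ => ?_
      ring
    change Tendsto _ atTop (𝓝 (charFun μ0 t))
    rw [h2]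
    refine h1.congr fun N => ?_
    change _ = charFun (emp w N) t
    rw [emp_charFun]
    rfl
  set E : Set (EuclideanSpace ℝ ι) := {x | ∀ i, x i ≤ y i} with hE
  have hEc : IsClosed E := by
    rw [hE]
    simp only [Set.ofPred_forall]
    apply isClosed_iInter
    intro i
    exact isClosed_le (by fun_prop) continuous_const
  have hEi : frontier E ⊆ ⋃ i, {x | x i = y i} := by
    intro x hx
    rw [hEc.frontier_eq] at hx
    obtain ⟨h1, h2⟩ := hx
    by_contra hcon
    rw [Set.mem_iUnion] at hcon
    push Not at hcon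
    apply h2
    rw [mem_interior]
    refine ⟨{x | ∀ i, x i < y i}, fun z hz i => (hz i).le, ?_, fun i => lt_of_le_of_ne (h1 i) (hcon i)⟩
    simp only [Set.ofPred_forall]
    apply isOpen_iInter_of_finite
    intro i
    exact isOpen_lt (by fun_prop) continuous_const
  have hnull : μ0 (frontier E) = 0 := by
    apply measure_mono_null hEi
    rw [measure_iUnion_null_iff]
    intro i
    rw [hμ0, Measure.map_apply hmeas]
    · have h1 : (WithLp.toLp 2 : (ι → ℝ) → EuclideanSpace ℝ ι) ⁻¹' {x | x i = y i} =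
          (Function.eval i : (ι → ℝ) → ℝ) ⁻¹' ({y i} : Set ℝ) := by
        ext x; simp
      rw [h1]
      have h2 := (measurePreserving_eval (fun _ : ι => gaussianReal 0 1) i).measure_preimage
        (measurableSet_singleton (y i)).nullMeasurableSet
      rw [h2]
      have hna := ProbabilityTheory.nullSingletonClass_gaussianReal (μ := (0 : ℝ)) (v := 1) (by norm_num)
      exact @measure_singleton _ _ _ hna (y i)
    · apply IsClosed.measurableSet
      exact isClosed_eq (by fun_prop) continuous_const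
  have h3 := ProbabilityMeasure.tendsto_measure_of_null_frontier_of_tendsto' hlim (E := E) hnull
  have h4 : (μ0 E).toReal = ∏ i, Phi (y i) := by
    rw [hμ0, Measure.map_apply hmeas hEc.measurableSet]
    have h1 : (WithLp.toLp 2 : (ι → ℝ) → EuclideanSpace ℝ ι) ⁻¹' E = Set.pi Set.univ fun i => Set.Iic (y i) := by
      ext x
      simp only [hE, Set.mem_preimage, Set.mem_ofPred_eq, Set.mem_pi, Set.mem_univ, Set.mem_Iic, true_implies]
    rw [h1, Measure.pi_pi, ENNReal.toReal_prod]
    rfl
  have h5 := (ENNReal.tendsto_toReal (measure_ne_top μ0 E)).comp h3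
  change Tendsto _ atTop (𝓝 (μ0 E).toReal) at h5
  rw [h4] at h5
  have h6 : Tendsto (fun N : ℕ => (((range (N + 1)).filter fun n => ∀ i, v n i ≤ y i).card : ℝ) / ((N + 1 : ℕ) : ℝ)) atTop
      (𝓝 (∏ i, Phi (y i))) := by
    refine h5.congr fun N => ?_
    change (emp w N).real E = _
    rw [emp_real w N E hEc.measurableSet]
    rfl
  exact (tendsto_add_atTop_iff_nat (f := fun N : ℕ =>
    (((range N).filter fun n => ∀ i, v n i ≤ y i).card : ℝ) / N) 1).1 h6

/-- **The joint Erdős–Kac theorem for linear forms.** -/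
theorem erdos_kac {a b : ι → ℕ} (h : Fm a b) (y : ι → ℝ) :
    Tendsto (fun N : ℕ => (((range N).filter fun n => ∀ i, Z (a i * n + b i) ≤ y i).card : ℝ) / N) atTop
      (𝓝 (∏ i, Phi (y i))) := by
  apply box_of_char (fun n i => Z (a i * n + b i))
  intro s
  exact char_Z h s

end Pool.Agent.W5h45.EK
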