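import Pool.Agent.W5h45.EK.A6

set_option autoImplicit false
set_option linter.unusedSectionVars false

/-!
The terms of the trajectories of `2^R n + r` as linear forms.
-/

namespace Pool.Agent.W5h45.EK

open Finset Filter Topology

/-- the `3x+1` function -/
def T (n : ℕ) : ℕ := if n % 2 = 0 then n / 2 else (3 * n + 1) / 2

theorem T_add (A s : ℕ) : T (2 * A + s) = (if s % 2 = 0 then A else 3 * A) + T s := by
  unfold T
  by_cases h : s % 2 = 0
  · rw [if_pos (by omega), if_pos h, if_pos h]; omega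
  · rw [if_neg (by omega), if_neg h, if_neg h]; omega

/-- the number of the odd terms among the first `j` ones -/
def oo (r : ℕ) : ℕ → ℕ
  | 0 => 0
  | j + 1 => if T^[j] r % 2 = 0 then oo r j else oo r j + 1

theorem pass (R r : ℕ) : ∀ j ≤ R, ∀ n, T^[j] (2 ^ R * n + r) = 3 ^ oo r j * 2 ^ (R - j) * n + T^[j] r
  | 0, _, n => by simp [oo]
  | j + 1, hj, n => by
    have ho := pass R r j (by omega)
    have e : R - j = (R - (j + 1)) + 1 := by omega
    unfold oo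
    by_cases h : T^[j] r % 2 = 0
    · rw [Function.iterate_succ_apply', Function.iterate_succ_apply', ho n, e,
        show 3 ^ oo r j * 2 ^ (R - (j + 1) + 1) * n = 2 * (3 ^ oo r j * 2 ^ (R - (j + 1)) * n) by ring,
        T_add, if_pos h, if_pos h]
    · rw [Function.iterate_succ_apply', Function.iterate_succ_apply', ho n, e,
        show 3 ^ oo r j * 2 ^ (R - (j + 1) + 1) * n = 2 * (3 ^ oo r j * 2 ^ (R - (j + 1)) * n) by ring,
        T_add, if_neg h, if_neg h]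
      ring

theorem sep (r j : ℕ) : ∀ l : ℕ, ∃ p D : ℕ, oo r (j + l) = oo r j + p ∧
    2 ^ (j + l) * T^[j + l] r = 3 ^ p * (2 ^ j * T^[j] r) + D ∧
    ((D = 0 ∧ ∀ i, j ≤ i → i < j + l → T^[i] r % 2 = 0) ∨ ∃ i e, i < j + l ∧ e % 2 = 1 ∧ D = 2 ^ i * e)
  | 0 => ⟨0, 0, by simp, by simp, Or.inl ⟨rfl, fun i h1 h2 => by omega⟩⟩
  | l + 1 => by
    obtain ⟨p, D, h1, h2, h3⟩ := sep r j l
    by_cases h : T^[j + l] r % 2 = 0
    · refine ⟨p, D, ?_, ?_, ?_⟩
      · rw [← add_assoc, oo, if_pos h, h1]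
      · rw [← h2, ← add_assoc, Function.iterate_succ_apply', pow_succ, T, if_pos h, mul_assoc]
        congr 1
        omega
      · rcases h3 with ⟨h3, h4⟩ | ⟨i, e, h3, h4, h5⟩
        · refine Or.inl ⟨h3, fun i g1 g2 => ?_⟩
          rcases Nat.lt_or_ge i (j + l) with g3 | g3
          · exact h4 i g1 g3
          · have : i = j + l := by omega
            rw [this]; exact h
        · exact Or.inr ⟨i, e, by omega, h4, h5⟩
    · refine ⟨p + 1, 3 * D + 2 ^ (j + l), ?_, ?_, ?_⟩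
      · rw [← add_assoc, oo, if_neg h, h1]; ring
      · rw [← add_assoc, Function.iterate_succ_apply', pow_succ, T, if_neg h, mul_assoc]
        have e : 2 * ((3 * T^[j + l] r + 1) / 2) = 3 * T^[j + l] r + 1 := by omega
        rw [e]
        have : 2 ^ (j + l) * (3 * T^[j + l] r + 1) = 3 * (2 ^ (j + l) * T^[j + l] r) + 2 ^ (j + l) := by ring
        rw [this, h2]
        ring
      · right
        rcases h3 with ⟨h3, h4⟩ | ⟨i, e, h3, h4, h5⟩
        · exact ⟨j + l, 1, by omega, rfl, by rw [h3]; ring⟩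
        · obtain ⟨c, hc⟩ : ∃ c, j + l = i + (c + 1) := ⟨j + l - i - 1, by omega⟩
          refine ⟨i, 3 * e + 2 * 2 ^ c, by omega, by omega, ?_⟩
          rw [h5, hc, pow_add, pow_succ]
          ring

theorem nonprop {R r j j' c c' : ℕ} (hjj : j < j') (hj' : j' ≤ R)
    (hodd : ∃ i, j ≤ i ∧ i < j' ∧ T^[i] r % 2 = 1) :
    (3 ^ oo r j * 2 ^ (R - j)) * (3 ^ oo r j' * 2 ^ (R - j') * c' + T^[j'] r) ≠
      (3 ^ oo r j' * 2 ^ (R - j')) * (3 ^ oo r j * 2 ^ (R - j) * c + T^[j] r) := by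
  intro h
  obtain ⟨l, rfl⟩ : ∃ l, j' = j + l := ⟨j' - j, by omega⟩
  obtain ⟨p, D, h1, h2, h3⟩ := sep r j l
  rw [h1] at h
  have e1 : 2 ^ (R - j) * 2 ^ j = 2 ^ R := by rw [← pow_add]; congr 1; omega
  have e2 : 2 ^ (R - (j + l)) * 2 ^ (j + l) = 2 ^ R := by rw [← pow_add]; congr 1; omega
  have h4 : 2 ^ R * 3 ^ oo r j * (3 ^ (oo r j + p) * 2 ^ R * c' + D) =
      2 ^ R * 3 ^ oo r j * (3 ^ (oo r j + p) * 2 ^ R * c) := by
    have h5 := congrArg (fun z => z * (2 ^ j * 2 ^ (j + l))) h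
    beta_reduce at h5
    have e3 : 3 ^ oo r j * 2 ^ (R - j) * (3 ^ (oo r j + p) * 2 ^ (R - (j + l)) * c' + T^[j + l] r) * (2 ^ j * 2 ^ (j + l)) =
        (2 ^ (R - j) * 2 ^ j) * 3 ^ oo r j * (3 ^ (oo r j + p) * (2 ^ (R - (j + l)) * 2 ^ (j + l)) * c' +
          2 ^ (j + l) * T^[j + l] r) := by ring
    have e4 : 3 ^ (oo r j + p) * 2 ^ (R - (j + l)) * (3 ^ oo r j * 2 ^ (R - j) * c + T^[j] r) * (2 ^ j * 2 ^ (j + l)) =
        (2 ^ (R - (j + l)) * 2 ^ (j + l)) * 3 ^ (oo r j + p) * (3 ^ oo r j * (2 ^ (R - j) * 2 ^ j) * c +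
          2 ^ j * T^[j] r) := by ring
    rw [e3, e4, e1, e2, h2] at h5
    have e5 : 2 ^ R * 3 ^ oo r j * (3 ^ (oo r j + p) * 2 ^ R * c' + (3 ^ p * (2 ^ j * T^[j] r) + D)) =
        2 ^ R * 3 ^ oo r j * (3 ^ (oo r j + p) * 2 ^ R * c' + D) + 2 ^ R * 3 ^ oo r j * (3 ^ p * (2 ^ j * T^[j] r)) := by
      ring
    have e6 : 2 ^ R * 3 ^ (oo r j + p) * (3 ^ oo r j * 2 ^ R * c + 2 ^ j * T^[j] r) =
        2 ^ R * 3 ^ oo r j * (3 ^ (oo r j + p) * 2 ^ R * c) + 2 ^ R * 3 ^ oo r j * (3 ^ p * (2 ^ j * T^[j] r)) := by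
      rw [pow_add]
      ring
    rw [e5, e6] at h5
    exact Nat.add_right_cancel h5
  have h5 := Nat.eq_of_mul_eq_mul_left (by positivity) h4
  rcases h3 with ⟨_, h3⟩ | ⟨i, e, h3, h6, h7⟩
  · obtain ⟨i, g1, g2, g3⟩ := hodd
    have := h3 i g1 g2
    omega
  · obtain ⟨d, hd⟩ : ∃ d, R = i + (d + 1) := ⟨R - i - 1, by omega⟩
    rw [h7, hd, show 2 ^ (i + (d + 1)) = 2 ^ i * (2 ^ d * 2) by rw [pow_add, pow_succ]] at h5
    have h8 : 2 ^ i * (2 * (3 ^ (oo r j + p) * 2 ^ d * c') + e) = 2 ^ i * (2 * (3 ^ (oo r j + p) * 2 ^ d * c)) := by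
      calc _ = 3 ^ (oo r j + p) * (2 ^ i * (2 ^ d * 2)) * c' + 2 ^ i * e := by ring
        _ = 3 ^ (oo r j + p) * (2 ^ i * (2 ^ d * 2)) * c := h5
        _ = _ := by ring
    have h9 := Nat.eq_of_mul_eq_mul_left (by positivity) h8
    omega

theorem T_pos {n : ℕ} (hn : 1 ≤ n) : 1 ≤ T n := by
  unfold T
  split_ifs <;> omega

theorem iter_pos {n : ℕ} (hn : 1 ≤ n) (j : ℕ) : 1 ≤ T^[j] n := by
  induction j with
  | zero => simpa using hn
  | succ j ih => rw [Function.iterate_succ_apply']; exact T_pos ih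

/-- positions any two of which are separated by an odd step -/
def Sep (R r : ℕ) (J : Finset ℕ) : Prop :=
  (∀ j ∈ J, j ≤ R) ∧ ∀ j ∈ J, ∀ j' ∈ J, j < j' → ∃ i, j ≤ i ∧ i < j' ∧ T^[i] r % 2 = 1

/-- joint distribution at the terms of several trajectories -/
theorem ek_shifts {R r : ℕ} (hr : 1 ≤ r) {J : Finset ℕ} (hJ : Sep R r J) (y : ℕ → ℝ) (C : Finset ℕ) :
    Tendsto (fun N : ℕ => (((range N).filter fun n => ∀ c ∈ C, ∀ j ∈ J,
      Z (T^[j] (2 ^ R * (n + c) + r)) ≤ y j).card : ℝ) / N) atTop (𝓝 ((∏ j ∈ J, Phi (y j)) ^ C.card)) := by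
  classical
  let a : J × C → ℕ := fun i => 3 ^ oo r i.1 * 2 ^ (R - i.1)
  let b : J × C → ℕ := fun i => 3 ^ oo r i.1 * 2 ^ (R - i.1) * i.2 + T^[i.1] r
  have hF : Fm a b := by
    refine ⟨fun i => ?_, fun i => ?_, ?_⟩
    · exact Nat.one_le_iff_ne_zero.2 (by positivity)
    · exact le_add_left (iter_pos hr _)
    · rintro ⟨j, c⟩ ⟨j', c'⟩ hne
      rcases lt_trichotomy (j : ℕ) (j' : ℕ) with h | h | h
      · exact nonprop h (hJ.1 j' j'.2) (hJ.2 j j.2 j' j'.2 h)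
      · have e : j = j' := Subtype.ext h
        subst e
        change 3 ^ oo r j * 2 ^ (R - j) * (3 ^ oo r j * 2 ^ (R - j) * c' + T^[j] r) ≠
          3 ^ oo r j * 2 ^ (R - j) * (3 ^ oo r j * 2 ^ (R - j) * c + T^[j] r)
        intro h5
        have h6 := Nat.eq_of_mul_eq_mul_left (by positivity) h5
        have h7 := Nat.eq_of_mul_eq_mul_left (by positivity) (Nat.add_right_cancel h6)
        apply hne
        rw [Subtype.ext h7]
      · exact (nonprop h (hJ.1 j j.2) (hJ.2 j' j'.2 j j.2 h)).symm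
  have h := erdos_kac hF (fun i => y i.1)
  have e1 : ∏ i : J × C, Phi (y i.1) = (∏ j ∈ J, Phi (y j)) ^ C.card := by
    rw [Fintype.prod_prod_type]
    simp only [prod_const, card_univ, Fintype.card_coe]
    rw [prod_pow, ← prod_coe_sort J]
  rw [e1] at h
  refine h.congr fun N => ?_
  congr 3
  apply filter_congr
  intro n _
  have e2 : ∀ (j : ℕ) (c : ℕ), j ∈ J → T^[j] (2 ^ R * (n + c) + r) =
      3 ^ oo r j * 2 ^ (R - j) * n + (3 ^ oo r j * 2 ^ (R - j) * c + T^[j] r) := by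
    intro j c hj
    rw [pass R r j (hJ.1 j hj)]
    ring
  constructor
  · intro h1 c hc j hj
    rw [e2 j c hj]
    exact h1 (⟨j, hj⟩, ⟨c, hc⟩)
  · rintro h1 ⟨⟨j, hj⟩, ⟨c, hc⟩⟩
    have := h1 c hc j hj
    rwa [e2 j c hj] at this

end Pool.Agent.W5h45.EK
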