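import Pool.Agent.W5h45.EK.B1

set_option autoImplicit false
set_option linter.unusedSectionVars false

/-!
Second moments of averages along short progressions.
-/

namespace Pool.Agent.W5h45.EK

open Finset Filter Topology

/-- a function with values `0`, `1` whose shifts are asymptotically independent -/
theorem second_moment {G : ℕ → ℝ} {ρ : ℝ} (hG : ∀ n, G n = 0 ∨ G n = 1) 
    (h1 : ∀ c, Tendsto (fun N : ℕ => (∑ n ∈ range N, G (n + c)) / N) atTop (𝓝 ρ))
    (h2 : ∀ c c', c ≠ c' → Tendsto (fun N : ℕ => (∑ n ∈ range N, G (n + c) * G (n + c')) / N) atTop (𝓝 (ρ ^ 2)))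
    {D : ℕ} (hD : 1 ≤ D) {H : ℕ} (hH : 1 ≤ H) :
    ∀ᶠ N : ℕ in atTop, ∑ n ∈ range N, |∑ h ∈ range H, (G (n + D * h) - ρ)| ≤ Real.sqrt H * N := by
  have hpair : ∀ h h' : ℕ, Tendsto (fun N : ℕ => (∑ n ∈ range N, (G (n + D * h) - ρ) * (G (n + D * h') - ρ)) / N)
      atTop (𝓝 (if h = h' then ρ - ρ ^ 2 else 0)) := by
    intro h h'
    have e : ∀ N : ℕ, 1 ≤ N → (∑ n ∈ range N, (G (n + D * h) - ρ) * (G (n + D * h') - ρ)) / (N : ℝ) =
        (∑ n ∈ range N, G (n + D * h) * G (n + D * h')) / N - ρ * ((∑ n ∈ range N, G (n + D * h)) / N)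
          - ρ * ((∑ n ∈ range N, G (n + D * h')) / N) + ρ ^ 2 := by
      intro N hN
      have hN0 : (N : ℝ) ≠ 0 := by
        have : (0 : ℝ) < N := by exact_mod_cast hN
        exact this.ne'
      have e1 : ∑ n ∈ range N, (G (n + D * h) - ρ) * (G (n + D * h') - ρ) =
          ∑ n ∈ range N, G (n + D * h) * G (n + D * h') - ρ * ∑ n ∈ range N, G (n + D * h)
          - ρ * ∑ n ∈ range N, G (n + D * h') + N * ρ ^ 2 := by
        rw [mul_sum, mul_sum, ← sum_sub_distrib, ← sum_sub_distrib]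
        have : (N : ℝ) * ρ ^ 2 = ∑ _n ∈ range N, ρ ^ 2 := by rw [sum_const, card_range, nsmul_eq_mul]
        rw [this, ← sum_add_distrib]
        refine sum_congr rfl fun n _ => ?_
        ring
      rw [e1]
      field_simp
    have hprod : Tendsto (fun N : ℕ => (∑ n ∈ range N, G (n + D * h) * G (n + D * h')) / N) atTop
        (𝓝 (if h = h' then ρ else ρ ^ 2)) := by
      split_ifs with heq
      · subst heq
        refine (h1 (D * h)).congr fun N => ?_
        congr 1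
        refine sum_congr rfl fun n _ => ?_
        rcases hG (n + D * h) with g | g <;> rw [g] <;> norm_num
      · apply h2
        intro h3
        exact heq (Nat.eq_of_mul_eq_mul_left hD h3)
    have hlim := ((hprod.sub ((h1 (D * h)).const_mul ρ)).sub ((h1 (D * h')).const_mul ρ)).add_const (ρ ^ 2)
    have e3 : (if h = h' then ρ else ρ ^ 2) - ρ * ρ - ρ * ρ + ρ ^ 2 = if h = h' then ρ - ρ ^ 2 else 0 := by
      split_ifs <;> ring
    rw [e3] at hlim
    refine hlim.congr' ?_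
    filter_upwards [eventually_ge_atTop 1] with N hN
    exact (e N hN).symm
  have hsum : Tendsto (fun N : ℕ => ∑ h ∈ range H, ∑ h' ∈ range H,
      (∑ n ∈ range N, (G (n + D * h) - ρ) * (G (n + D * h') - ρ)) / (N : ℝ)) atTop
      (𝓝 (∑ h ∈ range H, ∑ h' ∈ range H, if h = h' then ρ - ρ ^ 2 else 0)) :=
    tendsto_finsetSum _ fun h _ => tendsto_finsetSum _ fun h' _ => hpair h h'
  have e4 : ∑ h ∈ range H, ∑ h' ∈ range H, (if h = h' then ρ - ρ ^ 2 else 0) = H * (ρ - ρ ^ 2) := by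
    have : ∀ h ∈ range H, ∑ h' ∈ range H, (if h = h' then ρ - ρ ^ 2 else 0) = ρ - ρ ^ 2 := by
      intro h hh
      rw [sum_ite_eq, if_pos hh]
    rw [sum_congr rfl this, sum_const, card_range, nsmul_eq_mul]
  rw [e4] at hsum
  have hH0 : (0 : ℝ) < H := by exact_mod_cast hH
  have hlt : (H : ℝ) * (ρ - ρ ^ 2) < H := by
    have : ρ - ρ ^ 2 < 1 := by nlinarith [sq_nonneg (ρ - 1 / 2)]
    nlinarith
  filter_upwards [hsum.eventually (gt_mem_nhds hlt), eventually_ge_atTop 1] with N hN hN1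
  have hN0 : (0 : ℝ) < N := by exact_mod_cast hN1
  have e5 : ∑ h ∈ range H, ∑ h' ∈ range H,
      (∑ n ∈ range N, (G (n + D * h) - ρ) * (G (n + D * h') - ρ)) / (N : ℝ) =
      (∑ n ∈ range N, (∑ h ∈ range H, (G (n + D * h) - ρ)) ^ 2) / N := by
    simp only [← sum_div]
    congr 1
    simp only [sq, sum_mul_sum]
    rw [sum_comm]
    have : ∀ h' ∈ range H, ∑ h ∈ range H, ∑ n ∈ range N, (G (n + D * h) - ρ) * (G (n + D * h') - ρ) =
        ∑ n ∈ range N, ∑ h ∈ range H, (G (n + D * h) - ρ) * (G (n + D * h') - ρ) := fun h' _ => sum_comm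
    rw [sum_congr rfl this, sum_comm]
    refine sum_congr rfl fun n _ => sum_comm
  rw [e5, div_lt_iff₀ hN0] at hN
  have hcs := sq_sum_le_card_mul_sum_sq (s := range N) (f := fun n => |∑ h ∈ range H, (G (n + D * h) - ρ)|)
  simp only [sq_abs, card_range] at hcs
  have h3 : (∑ n ∈ range N, |∑ h ∈ range H, (G (n + D * h) - ρ)|) ^ 2 ≤ (Real.sqrt H * N) ^ 2 := by
    rw [mul_pow, Real.sq_sqrt hH0.le]
    calc _ ≤ (N : ℝ) * ∑ n ∈ range N, (∑ h ∈ range H, (G (n + D * h) - ρ)) ^ 2 := hcs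
      _ ≤ (N : ℝ) * (H * N) := mul_le_mul_of_nonneg_left hN.le hN0.le
      _ = _ := by ring
  exact (abs_le_of_sq_le_sq' h3 (by positivity)).2

/-- the window function -/
noncomputable def gn (R r : ℕ) (J : Finset ℕ) (y : ℕ → ℝ) (x : ℕ) : ℝ := by
  classical
  exact if x % 2 ^ R = r % 2 ^ R ∧ ∀ j ∈ J, Z (T^[j] x) ≤ y j then 1 else 0

theorem gn_zero {R r : ℕ} {J : Finset ℕ} {y : ℕ → ℝ} {x : ℕ} (h : x % 2 ^ R ≠ r % 2 ^ R) : gn R r J y x = 0 := by
  unfold gn
  rw [if_neg]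
  exact fun h1 => h h1.1

theorem gn_01 (R r : ℕ) (J : Finset ℕ) (y : ℕ → ℝ) (x : ℕ) : gn R r J y x = 0 ∨ gn R r J y x = 1 := by
  unfold gn
  split_ifs
  · exact Or.inr rfl
  · exact Or.inl rfl

theorem one_hit {R u m : ℕ} (hu : u < 2 ^ R) (x : ℕ) :
    ∑ i ∈ range (2 ^ R), (if (x + 3 ^ m * i) % 2 ^ R = u then (1 : ℝ) else 0) = 1 := by
  have hinj : Set.InjOn (fun i => (x + 3 ^ m * i) % 2 ^ R) (range (2 ^ R) : Set ℕ) := by
    intro i hi i' hi' h
    simp only [coe_range, Set.mem_Iio] at hi hi'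
    have h1 : x + 3 ^ m * i ≡ x + 3 ^ m * i' [MOD 2 ^ R] := h
    have h2 := Nat.ModEq.add_left_cancel' x h1
    have h3 : Nat.gcd (2 ^ R) (3 ^ m) = 1 := Nat.Coprime.pow _ _ (by norm_num)
    have h4 := Nat.ModEq.cancel_left_of_coprime h3 h2
    exact Nat.ModEq.eq_of_lt_of_lt h4 hi hi'
  have himg : (range (2 ^ R)).image (fun i => (x + 3 ^ m * i) % 2 ^ R) = range (2 ^ R) := by
    apply eq_of_subset_of_card_le
    · intro u hu
      rw [mem_image] at hu
      obtain ⟨i, _, rfl⟩ := hu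
      rw [mem_range]
      exact Nat.mod_lt _ (by positivity)
    · rw [card_image_of_injOn hinj]
  have h5 := sum_image (f := fun v => if v = u then (1 : ℝ) else 0) hinj
  rw [himg] at h5
  rw [← h5, sum_ite_eq' (range (2 ^ R)) u, if_pos (mem_range.2 hu)]

theorem block_sum (P H : ℕ) (f : ℕ → ℝ) :
    ∑ i ∈ range (P * H), f i = ∑ i ∈ range P, ∑ h ∈ range H, f (i + P * h) := by
  induction H with
  | zero => simp
  | succ H ih =>
    rw [Nat.mul_succ, sum_range_add, ih, ← sum_add_distrib]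
    refine sum_congr rfl fun i _ => ?_
    rw [sum_range_succ, add_comm (P * H) i]

theorem gn_window {R r m : ℕ} (J : Finset ℕ) (y : ℕ → ℝ) (H : ℕ) (ρ : ℝ) (x : ℕ) :
    |∑ i ∈ range (2 ^ R * H), (gn R r J y (x + 3 ^ m * i) - ρ / 2 ^ R)| ≤
      ∑ i ∈ range (2 ^ R), if (x + 3 ^ m * i) % 2 ^ R = r % 2 ^ R then
        |∑ h ∈ range H, (gn R r J y (x + 3 ^ m * i + 3 ^ m * 2 ^ R * h) - ρ)| else 0 := by
  have e1 : ∑ i ∈ range (2 ^ R * H), (gn R r J y (x + 3 ^ m * i) - ρ / 2 ^ R) =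
      ∑ i ∈ range (2 ^ R), if (x + 3 ^ m * i) % 2 ^ R = r % 2 ^ R then
        ∑ h ∈ range H, (gn R r J y (x + 3 ^ m * i + 3 ^ m * 2 ^ R * h) - ρ) else 0 := by
    have e2 : ∑ i ∈ range (2 ^ R * H), gn R r J y (x + 3 ^ m * i) =
        ∑ i ∈ range (2 ^ R), ∑ h ∈ range H, gn R r J y (x + 3 ^ m * i + 3 ^ m * 2 ^ R * h) := by
      rw [block_sum]
      refine sum_congr rfl fun i _ => sum_congr rfl fun h _ => ?_
      congr 1
      ring
    rw [sum_sub_distrib, e2, sum_const, card_range, nsmul_eq_mul]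
    have e3 : ((2 ^ R * H : ℕ) : ℝ) * (ρ / 2 ^ R) = (H * ρ) * ∑ i ∈ range (2 ^ R),
        (if (x + 3 ^ m * i) % 2 ^ R = r % 2 ^ R then (1 : ℝ) else 0) := by
      rw [one_hit (Nat.mod_lt _ (by positivity))]
      push_cast
      field_simp
    rw [e3, mul_sum, ← sum_sub_distrib]
    refine sum_congr rfl fun i _ => ?_
    split_ifs with h
    · rw [sum_sub_distrib, sum_const, card_range, nsmul_eq_mul, mul_one]
    · rw [mul_zero, sub_zero]
      refine sum_eq_zero fun h' _ => ?_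
      apply gn_zero
      intro h2
      apply h
      rw [← h2, show x + 3 ^ m * i + 3 ^ m * 2 ^ R * h' = (x + 3 ^ m * i) + 2 ^ R * (3 ^ m * h') by ring,
        Nat.add_mul_mod_self_left]
  rw [e1]
  refine (abs_sum_le_sum_abs _ _).trans (le_of_eq ?_)
  refine sum_congr rfl fun i _ => ?_
  split_ifs <;> simp

theorem decomp {P r X : ℕ} (hr2 : r ≤ P) (hX : 1 ≤ X) (h : X % P = r % P) :
    P * ((X - r) / P) + r = X := by
  have h1 : r ≤ X := by
    rcases Nat.lt_or_ge r P with g | g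
    · rw [Nat.mod_eq_of_lt g] at h
      rw [← h]
      exact Nat.mod_le _ _
    · have e : r = P := le_antisymm hr2 g
      rw [e, Nat.mod_self] at h
      rw [e]
      exact Nat.le_of_dvd hX (Nat.dvd_of_mod_eq_zero h)
  have h2 : P ∣ X - r := (Nat.modEq_iff_dvd' h1).1 (show r ≡ X [MOD P] from h.symm)
  rw [Nat.mul_div_cancel' h2]
  omega

theorem gn_window_sum {R r m : ℕ} (hr2 : r ≤ 2 ^ R) (J : Finset ℕ) (y : ℕ → ℝ) (H : ℕ) (ρ : ℝ) (M : ℕ) :
    ∑ x ∈ Ico 1 M, |∑ i ∈ range (2 ^ R * H), (gn R r J y (x + 3 ^ m * i) - ρ / 2 ^ R)| ≤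
      2 ^ R * ∑ n ∈ range (M / 2 ^ R + 1 + 3 ^ m), |∑ h ∈ range H, (gn R r J y (2 ^ R * (n + 3 ^ m * h) + r) - ρ)| := by
  refine (sum_le_sum fun x _ => gn_window J y H ρ x).trans ?_
  rw [sum_comm]
  have h1 : ∀ i ∈ range (2 ^ R), ∑ x ∈ Ico 1 M, (if (x + 3 ^ m * i) % 2 ^ R = r % 2 ^ R then
        |∑ h ∈ range H, (gn R r J y (x + 3 ^ m * i + 3 ^ m * 2 ^ R * h) - ρ)| else 0) ≤
      ∑ n ∈ range (M / 2 ^ R + 1 + 3 ^ m), |∑ h ∈ range H, (gn R r J y (2 ^ R * (n + 3 ^ m * h) + r) - ρ)| := by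
    intro i hi
    rw [mem_range] at hi
    rw [← sum_filter]
    set A := (Ico 1 M).filter fun x => (x + 3 ^ m * i) % 2 ^ R = r % 2 ^ R with hA
    have hpow : 0 < 2 ^ R := by positivity
    have hdm : ∀ x ∈ A, 2 ^ R * ((x + 3 ^ m * i - r) / 2 ^ R) + r = x + 3 ^ m * i := by
      intro x hx
      rw [hA, mem_filter, mem_Ico] at hx
      exact decomp hr2 (by omega) hx.2
    have hinj : Set.InjOn (fun x => (x + 3 ^ m * i - r) / 2 ^ R) (A : Set ℕ) := by
      intro x hx x' hx' h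
      have g1 := hdm x hx
      have g2 := hdm x' hx'
      simp only at h
      rw [h] at g1
      omega
    have hsub : A.image (fun x => (x + 3 ^ m * i - r) / 2 ^ R) ⊆ range (M / 2 ^ R + 1 + 3 ^ m) := by
      intro n hn
      rw [mem_image] at hn
      obtain ⟨x, hx, rfl⟩ := hn
      rw [hA, mem_filter, mem_Ico] at hx
      rw [mem_range, Nat.div_lt_iff_lt_mul hpow]
      have g1 : M < 2 ^ R * (M / 2 ^ R + 1) := by
        have := Nat.lt_mul_div_succ M hpow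
        exact this
      have g2 : 3 ^ m * i ≤ 3 ^ m * 2 ^ R := Nat.mul_le_mul_left _ hi.le
      calc x + 3 ^ m * i - r < 2 ^ R * (M / 2 ^ R + 1) + 3 ^ m * 2 ^ R := by omega
        _ = _ := by ring
    calc ∑ x ∈ A, |∑ h ∈ range H, (gn R r J y (x + 3 ^ m * i + 3 ^ m * 2 ^ R * h) - ρ)| =
        ∑ x ∈ A, |∑ h ∈ range H, (gn R r J y (2 ^ R * ((x + 3 ^ m * i - r) / 2 ^ R + 3 ^ m * h) + r) - ρ)| := by
          refine sum_congr rfl fun x hx => ?_
          have g1 := hdm x hx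
          congr 1
          refine sum_congr rfl fun h _ => ?_
          congr 2
          rw [mul_add, add_right_comm (2 ^ R * ((x + 3 ^ m * i - r) / 2 ^ R)), g1]
          ring
      _ = ∑ n ∈ A.image (fun x => (x + 3 ^ m * i - r) / 2 ^ R),
          |∑ h ∈ range H, (gn R r J y (2 ^ R * (n + 3 ^ m * h) + r) - ρ)| :=
            (sum_image (f := fun n => |∑ h ∈ range H, (gn R r J y (2 ^ R * (n + 3 ^ m * h) + r) - ρ)|) hinj).symm
      _ ≤ _ := sum_le_sum_of_subset_of_nonneg hsub fun _ _ _ => abs_nonneg _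
  refine (sum_le_sum h1).trans (le_of_eq ?_)
  rw [sum_const, card_range, nsmul_eq_mul]
  push_cast
  rfl

end Pool.Agent.W5h45.EK
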