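import Pool.Agent.W5h45.EK.B2
import Pool.Agent.R344.SP.I

set_option autoImplicit false
set_option linter.unusedSectionVars false

/-!
Local means of the window function.
-/

namespace Pool.Agent.W5h45.EK

open Finset Filter Topology
open Pool.Agent.R344.SP (LocMean Wn mem_Wn)

theorem Phi_nonneg (y : ℝ) : 0 ≤ Phi y := MeasureTheory.measureReal_nonneg

theorem Phi_le_one (y : ℝ) : Phi y ≤ 1 := MeasureTheory.measureReal_le_one

theorem gn_mean {R r : ℕ} (hr : 1 ≤ r) {J : Finset ℕ} (hJ : Sep R r J) (y : ℕ → ℝ) (c : ℕ) :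
    Tendsto (fun N : ℕ => (∑ n ∈ range N, gn R r J y (2 ^ R * (n + c) + r)) / (N : ℝ)) atTop
      (𝓝 (∏ j ∈ J, Phi (y j))) := by
  classical
  have h := ek_shifts hr hJ y {c}
  rw [card_singleton, pow_one] at h
  refine h.congr fun N => ?_
  congr 1
  rw [card_filter]
  push_cast
  refine sum_congr rfl fun n _ => ?_
  unfold gn
  apply if_congr _ rfl rfl
  constructor
  · intro h1
    refine ⟨?_, h1 c (mem_singleton_self c)⟩
    rw [Nat.mul_add_mod]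
  · rintro ⟨_, h1⟩ c' hc'
    rw [mem_singleton] at hc'
    rw [hc']
    exact h1

theorem gn_mean2 {R r : ℕ} (hr : 1 ≤ r) {J : Finset ℕ} (hJ : Sep R r J) (y : ℕ → ℝ)
    {c c' : ℕ} (hcc : c ≠ c') :
    Tendsto (fun N : ℕ => (∑ n ∈ range N, gn R r J y (2 ^ R * (n + c) + r) * gn R r J y (2 ^ R * (n + c') + r)) / (N : ℝ))
      atTop (𝓝 ((∏ j ∈ J, Phi (y j)) ^ 2)) := by
  classical
  have h := ek_shifts hr hJ y {c, c'}
  rw [card_pair hcc] at h
  refine h.congr fun N => ?_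
  congr 1
  rw [card_filter]
  push_cast
  refine sum_congr rfl fun n _ => ?_
  unfold gn
  have h0 : ∀ k, (2 ^ R * k + r) % 2 ^ R = r % 2 ^ R := by
    intro k
    rw [Nat.mul_add_mod]
  simp only [h0, true_and]
  have h1 : (∀ d ∈ ({c, c'} : Finset ℕ), ∀ j ∈ J, Z (T^[j] (2 ^ R * (n + d) + r)) ≤ y j) ↔
      ((∀ j ∈ J, Z (T^[j] (2 ^ R * (n + c) + r)) ≤ y j) ∧ (∀ j ∈ J, Z (T^[j] (2 ^ R * (n + c') + r)) ≤ y j)) := by
    constructor
    · intro g
      exact ⟨g c (by simp), g c' (by simp)⟩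
    · rintro ⟨g1, g2⟩ d hd
      rw [mem_insert, mem_singleton] at hd
      rcases hd with rfl | rfl
      · exact g1
      · exact g2
  by_cases g1 : ∀ j ∈ J, Z (T^[j] (2 ^ R * (n + c) + r)) ≤ y j
  · by_cases g2 : ∀ j ∈ J, Z (T^[j] (2 ^ R * (n + c') + r)) ≤ y j
    · rw [if_pos (h1.2 ⟨g1, g2⟩), if_pos g1, if_pos g2, mul_one]
    · rw [if_neg (fun g => g2 (h1.1 g).2), if_neg g2, mul_zero]
  · rw [if_neg (fun g => g1 (h1.1 g).1), if_neg g1, zero_mul]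

/-- the window function on the integers -/
noncomputable def gz (R r : ℕ) (J : Finset ℕ) (y : ℕ → ℝ) (x : ℤ) : ℝ := gn R r J y x.toNat

theorem gz_locMean {R r : ℕ} (hr : 1 ≤ r) (hr2 : r ≤ 2 ^ R) {J : Finset ℕ} (hJ : Sep R r J) (y : ℕ → ℝ) :
    LocMean 1 (gz R r J y) ((∏ j ∈ J, Phi (y j)) / 2 ^ R) := by
  intro m
  refine ⟨1, fun η hη => ?_⟩
  obtain ⟨H, hH⟩ := exists_nat_ge (max 1 (16 / η ^ 2))
  have hH1 : 1 ≤ H := by
    have : (1 : ℝ) ≤ H := (le_max_left _ _).trans hH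
    exact_mod_cast this
  have hH2 : 16 / η ^ 2 ≤ H := (le_max_right _ _).trans hH
  set ρ := ∏ j ∈ J, Phi (y j) with hρ
  have hsm := second_moment (G := fun n => gn R r J y (2 ^ R * n + r)) (ρ := ρ) (fun n => gn_01 _ _ _ _ _)
    (fun c => gn_mean hr hJ y c) (fun c c' hcc => gn_mean2 hr hJ y hcc) (D := 3 ^ m) (Nat.one_le_iff_ne_zero.2 (by positivity)) hH1
  obtain ⟨N₀, hN₀⟩ := eventually_atTop.1 hsm
  have hpow : 0 < 2 ^ R := by positivity
  refine ⟨2 ^ R * H, Nat.mul_pos hpow hH1, max ((2 ^ R * N₀ : ℕ) : ℝ) ((1 + 2 ^ R + 3 ^ m * 2 ^ R : ℕ) : ℝ), fun X hX => ?_⟩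
  have hX1 : ((2 ^ R * N₀ : ℕ) : ℝ) ≤ X := (le_max_left _ _).trans hX
  have hX2 : ((1 + 2 ^ R + 3 ^ m * 2 ^ R : ℕ) : ℝ) ≤ X := (le_max_right _ _).trans hX
  push_cast at hX1 hX2
  have hX0 : 0 < X := lt_of_lt_of_le (by positivity) hX2
  -- to natural numbers
  set Ψ : ℕ → ℝ := fun x => |∑ i ∈ range (2 ^ R * H), (gn R r J y (x + 3 ^ m * i) - ρ / 2 ^ R)| with hΨ
  have hΨ0 : ∀ x, 0 ≤ Ψ x := fun x => abs_nonneg _
  have s1 : ∑ x ∈ Wn X, |∑ i ∈ range (2 ^ R * H), (gz R r J y (x + 1 * (3 ^ m * 1 * i)) - ρ / 2 ^ R)| =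
      ∑ x ∈ Wn X, Ψ x.toNat := by
    refine sum_congr rfl fun x hx => ?_
    rw [mem_Wn] at hx
    have hx0 : (0 : ℝ) < x := lt_of_lt_of_le hX0 hx.1
    have hx0' : 0 < x := by exact_mod_cast hx0
    rw [hΨ]; dsimp only
    congr 1
    refine sum_congr rfl fun i _ => ?_
    unfold gz
    congr 2
    have : (x + 1 * (3 ^ m * 1 * (i : ℤ))) = ((x.toNat + 3 ^ m * i : ℕ) : ℤ) := by
      push_cast
      rw [Int.toNat_of_nonneg hx0'.le]
      ring
    rw [this, Int.toNat_natCast]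
  rw [s1]
  set M : ℕ := ⌈2 * X⌉₊ with hM
  have s2 : ∑ x ∈ Wn X, Ψ x.toNat ≤ ∑ x ∈ Ico 1 M, Ψ x := by
    have hinj : Set.InjOn Int.toNat (Wn X : Set ℤ) := by
      intro x hx x' hx' h
      rw [mem_coe, mem_Wn] at hx hx'
      have g1 : (0 : ℝ) < x := lt_of_lt_of_le hX0 hx.1
      have g2 : (0 : ℝ) < x' := lt_of_lt_of_le hX0 hx'.1
      have g1' : 0 < x := by exact_mod_cast g1
      have g2' : 0 < x' := by exact_mod_cast g2
      omega
    rw [← sum_image (f := Ψ) hinj]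
    apply sum_le_sum_of_subset_of_nonneg _ fun _ _ _ => hΨ0 _
    intro n hn
    rw [mem_image] at hn
    obtain ⟨x, hx, rfl⟩ := hn
    rw [mem_Wn] at hx
    have g1 : (0 : ℝ) < x := lt_of_lt_of_le hX0 hx.1
    have g1' : 0 < x := by exact_mod_cast g1
    rw [mem_Ico, hM, Nat.lt_ceil]
    refine ⟨by omega, ?_⟩
    have : ((x.toNat : ℕ) : ℝ) = (x : ℝ) := by
      have h5 : ((x.toNat : ℕ) : ℤ) = x := Int.toNat_of_nonneg g1'.le
      exact_mod_cast h5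
    rw [this]
    exact hx.2
  have s3 := gn_window_sum (m := m) hr2 J y H ρ M
  set N : ℕ := M / 2 ^ R + 1 + 3 ^ m with hN
  have hMle : (M : ℝ) < 2 * X + 1 := Nat.ceil_lt_add_one (by positivity)
  have hMge : 2 * X ≤ M := Nat.le_ceil _
  have hNN : N₀ ≤ N := by
    have g1 : 2 ^ R * N₀ ≤ M := by
      have : ((2 ^ R * N₀ : ℕ) : ℝ) ≤ (M : ℝ) := by push_cast; linarith
      exact_mod_cast this
    have g2 : N₀ ≤ M / 2 ^ R := by
      rw [Nat.le_div_iff_mul_le hpow, mul_comm]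
      exact g1
    have g3 : M / 2 ^ R ≤ N := by rw [hN, add_assoc]; exact Nat.le_add_right _ _
    exact g2.trans g3
  have s4 := hN₀ N hNN
  have hNle : (2 : ℝ) ^ R * N ≤ 4 * X := by
    have g1 : 2 ^ R * N ≤ M + 2 ^ R + 3 ^ m * 2 ^ R := by
      have := Nat.mul_div_le M (2 ^ R)
      rw [hN]
      calc 2 ^ R * (M / 2 ^ R + 1 + 3 ^ m) = 2 ^ R * (M / 2 ^ R) + 2 ^ R + 3 ^ m * 2 ^ R := by ring
        _ ≤ _ := by omega
    have g2 : ((2 ^ R * N : ℕ) : ℝ) ≤ ((M + 2 ^ R + 3 ^ m * 2 ^ R : ℕ) : ℝ) := by exact_mod_cast g1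
    push_cast at g2
    linarith
  refine s2.trans (s3.trans ?_)
  have hHr : (0 : ℝ) < H := by exact_mod_cast hH1
  have hs0 : 0 < Real.sqrt H := Real.sqrt_pos.2 hHr
  have hss : Real.sqrt H * Real.sqrt H = H := Real.mul_self_sqrt hHr.le
  have h4 : 4 ≤ η * Real.sqrt H := by
    have g1 : (4 / η) ^ 2 ≤ H := by
      have g0 : (4 / η) ^ 2 = 16 / η ^ 2 := by rw [div_pow]; norm_num
      rw [g0]
      exact hH2
    have g2 := Real.le_sqrt_of_sq_le g1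
    rw [div_le_iff₀ hη] at g2
    linarith
  have h2R : (1 : ℝ) ≤ 2 ^ R := one_le_pow₀ (by norm_num)
  calc 2 ^ R * ∑ n ∈ range N, |∑ h ∈ range H, (gn R r J y (2 ^ R * (n + 3 ^ m * h) + r) - ρ)| ≤
      2 ^ R * (Real.sqrt H * N) := mul_le_mul_of_nonneg_left s4 (by positivity)
    _ = Real.sqrt H * (2 ^ R * N) := by ring
    _ ≤ Real.sqrt H * (4 * X) := mul_le_mul_of_nonneg_left hNle hs0.le
    _ = 4 * (Real.sqrt H * X) := by ring
    _ ≤ (η * Real.sqrt H) * (Real.sqrt H * X) := by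
        apply mul_le_mul_of_nonneg_right h4
        positivity
    _ = η * (1 * (Real.sqrt H * Real.sqrt H)) * X := by ring
    _ ≤ η * (2 ^ R * (Real.sqrt H * Real.sqrt H)) * X := by
        have : 0 ≤ Real.sqrt H * Real.sqrt H := by positivity
        gcongr
    _ = η * ((2 ^ R * H : ℕ) : ℝ) * X := by
        rw [hss]
        push_cast
        ring

end Pool.Agent.W5h45.EK
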